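import Pool.Agent.Helper13.MW.QE

/-!
# MW-CMP: from weighted families to step laws, and comparison of word lengths

`wordLen S g`: least length of a product of elements of `S` and inverses of elements of `S`.  `expLen S μ n = E |X_n|_S`.
`compare`: with `T = μ.support` (closed under inverses, generating, finite) every element of `T` is a product of at most `C` letters of `S ∪ S⁻¹` and conversely, so
`|g|_S ≤ C |g|_T` and `|g|_T ≤ C |g|_S`; sum against the (nonnegative) weights.
`tendsto_of_compare`: if `c x_n ≤ y_n ≤ C x_n` with `0 < c` and `log x_n / log n → β` then `log y_n / log n → β` (where `x_n = 0` also `y_n = 0`; where `x_n > 0` the logarithms differ by a bounded amount;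
`log 0 = 0`).
-/

set_option autoImplicit false

namespace Pool.Agent.Helper13.MW

open Pool.Agent.Helper13.MS

/-- the word length of `g` with respect to `S`: the least length of a product of elements of `S` and inverses of elements of `S` which equals `g` -/
noncomputable def wordLen {G : Type} [Group G] (S : Set G) (g : G) : ℕ :=
  sInf {m | ∃ l : List G, l.length = m ∧ (∀ x ∈ l, x ∈ S ∨ x⁻¹ ∈ S) ∧ l.prod = g}

/-- the expected word length of `X_n = ξ_1 * ... * ξ_n`, the `ξ_i` independent of law `μ` -/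
noncomputable def expLen {G : Type} [Group G] (S : Set G) (μ : G →₀ ℝ) (n : ℕ) : ℝ :=
  ∑ w : Fin n → μ.support, (∏ i, μ (w i)) * (wordLen S (List.ofFn fun i => (w i : G)).prod : ℝ)

private theorem exists_list34 {G : Type} [Group G] (S : Set G) (hS : Subgroup.closure S = ⊤) (g : G) :
    ∃ l : List G, (∀ x ∈ l, x ∈ S ∨ x⁻¹ ∈ S) ∧ l.prod = g := by
  have hg : g ∈ Subgroup.closure S := by
    rw [hS]
    exact Subgroup.mem_top g
  induction hg using Subgroup.closure_induction with
  | mem x hx => exact ⟨[x], by simpa using Or.inl hx, by simp⟩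
  | one => exact ⟨[], by simp, rfl⟩
  | mul x y _ _ hx hy =>
    obtain ⟨l1, h1, e1⟩ := hx
    obtain ⟨l2, h2, e2⟩ := hy
    refine ⟨l1 ++ l2, ?_, by rw [List.prod_append, e1, e2]⟩
    intro z hz
    rcases List.mem_append.1 hz with h | h
    · exact h1 z h
    · exact h2 z h
  | inv x _ hx =>
    obtain ⟨l, h, e⟩ := hx
    refine ⟨(l.map fun z => z⁻¹).reverse, ?_, ?_⟩
    · intro z hz
      rw [List.mem_reverse, List.mem_map] at hz
      obtain ⟨u, hu, rfl⟩ := hz
      rw [inv_inv]
      exact (h u hu).symm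
    · rw [← List.prod_inv_reverse, e]

private theorem opt34 {G : Type} [Group G] (S : Set G) (hS : Subgroup.closure S = ⊤) (g : G) :
    ∃ l : List G, l.length = wordLen S g ∧ (∀ x ∈ l, x ∈ S ∨ x⁻¹ ∈ S) ∧ l.prod = g := by
  have hne : {m | ∃ l : List G, l.length = m ∧ (∀ x ∈ l, x ∈ S ∨ x⁻¹ ∈ S) ∧ l.prod = g}.Nonempty := by
    obtain ⟨l, h, e⟩ := exists_list34 S hS g
    exact ⟨_, l, rfl, h, e⟩
  exact Nat.sInf_mem hne

private theorem le34 {G : Type} [Group G] (S : Set G) (l : List G) (h : ∀ x ∈ l, x ∈ S ∨ x⁻¹ ∈ S) :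
    wordLen S l.prod ≤ l.length :=
  Nat.sInf_le ⟨l, rfl, h, rfl⟩

private theorem mul34 {G : Type} [Group G] (S : Set G) (hS : Subgroup.closure S = ⊤) (g h : G) :
    wordLen S (g * h) ≤ wordLen S g + wordLen S h := by
  obtain ⟨l1, e1, h1, p1⟩ := opt34 S hS g
  obtain ⟨l2, e2, h2, p2⟩ := opt34 S hS h
  have h3 := le34 S (l1 ++ l2) (by
    intro z hz
    rcases List.mem_append.1 hz with h | h
    · exact h1 z h
    · exact h2 z h)
  rw [List.prod_append, p1, p2, List.length_append, e1, e2] at h3
  exact h3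

private theorem inv34 {G : Type} [Group G] (S : Set G) (hS : Subgroup.closure S = ⊤) (g : G) :
    wordLen S g⁻¹ ≤ wordLen S g := by
  obtain ⟨l, e, h, p⟩ := opt34 S hS g
  have h3 := le34 S (l.map fun z => z⁻¹).reverse (by
    intro z hz
    rw [List.mem_reverse, List.mem_map] at hz
    obtain ⟨u, hu, rfl⟩ := hz
    rw [inv_inv]
    exact (h u hu).symm)
  rw [← List.prod_inv_reverse, p, List.length_reverse, List.length_map, e] at h3
  exact h3

private theorem one34 {G : Type} [Group G] (S : Set G) : wordLen S (1 : G) = 0 :=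
  Nat.sInf_eq_zero.2 (Or.inl ⟨[], rfl, by simp, rfl⟩)

private theorem prod34 {G : Type} [Group G] (S : Set G) (hS : Subgroup.closure S = ⊤) (C : ℕ) (l : List G)
    (h : ∀ x ∈ l, wordLen S x ≤ C) : wordLen S l.prod ≤ C * l.length := by
  induction l with
  | nil =>
    rw [List.prod_nil, one34]
    exact Nat.zero_le _
  | cons a l ih =>
    rw [List.prod_cons, List.length_cons]
    have h1 := mul34 S hS a l.prod
    have h2 := ih fun x hx => h x (List.mem_cons_of_mem _ hx)
    have h3 := h a List.mem_cons_self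
    have h4 : C * (l.length + 1) = C * l.length + C := by ring
    omega

private theorem cmp34 {G : Type} [Group G] (S : Set G) (hS : Subgroup.closure S = ⊤) (T : Finset G)
    (hT : Subgroup.closure (T : Set G) = ⊤) :
    ∃ C : ℕ, ∀ g, wordLen S g ≤ C * wordLen (T : Set G) g := by
  refine ⟨∑ t ∈ T, wordLen S t, fun g => ?_⟩
  obtain ⟨l, e, h, p⟩ := opt34 (T : Set G) hT g
  rw [← e, ← p]
  refine prod34 S hS _ l fun x hx => ?_
  have hk : ∀ y ∈ T, wordLen S y ≤ ∑ t ∈ T, wordLen S t := fun y hy =>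
    Finset.single_le_sum (f := fun t => wordLen S t) (fun _ _ => Nat.zero_le _) hy
  rcases h x hx with h1 | h1
  · exact hk x h1
  · have h2 := inv34 S hS x⁻¹
    rw [inv_inv] at h2
    exact h2.trans (hk _ h1)

private theorem eq34 {G : Type} [Group G] (T : Set G) (hT : ∀ x, x⁻¹ ∈ T → x ∈ T) (g : G) :
    wordLength T g = wordLen T g := by
  unfold wordLength wordLen
  congr 1
  ext m
  constructor
  · rintro ⟨l, e, h, p⟩
    exact ⟨l, e, fun x hx => Or.inl (h x hx), p⟩
  · rintro ⟨l, e, h, p⟩
    exact ⟨l, e, fun x hx => (h x hx).elim id (hT x), p⟩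

theorem compare {G : Type} [Group G] (μ : G →₀ ℝ) (h0 : ∀ g, 0 ≤ μ g) (hsymm : ∀ g, μ g⁻¹ = μ g)
    (hgen : Subgroup.closure (μ.support : Set G) = ⊤) (S : Finset G) (hS : Subgroup.closure (S : Set G) = ⊤) :
    ∃ c C : ℝ, 0 < c ∧ 0 < C ∧ ∀ n : ℕ,
      c * elw (fun g : μ.support => (g : G)) (fun g => μ g) n ≤ expLen (S : Set G) μ n ∧
      expLen (S : Set G) μ n ≤ C * elw (fun g : μ.support => (g : G)) (fun g => μ g) n := by
  have hTs : Set.range (fun g : μ.support => (g : G)) = (μ.support : Set G) := by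
    ext x
    constructor
    · rintro ⟨y, rfl⟩
      exact y.2
    · intro hx
      exact ⟨⟨x, hx⟩, rfl⟩
  have hinv : ∀ x : G, x⁻¹ ∈ (μ.support : Set G) → x ∈ (μ.support : Set G) := by
    intro x hx
    rw [Finset.mem_coe, Finsupp.mem_support_iff] at hx ⊢
    rwa [hsymm] at hx
  obtain ⟨C1, h1⟩ := cmp34 (S : Set G) hS μ.support hgen
  obtain ⟨C2, h2⟩ := cmp34 (μ.support : Set G) hgen S hS
  have hC1 : (0 : ℝ) ≤ C1 := Nat.cast_nonneg _
  have hC2 : (0 : ℝ) ≤ C2 := Nat.cast_nonneg _
  refine ⟨1 / ((C2 : ℝ) + 1), (C1 : ℝ) + 1, by positivity, by positivity, fun n => ?_⟩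
  have e1 : elw (fun g : μ.support => (g : G)) (fun g => μ g) n =
      ∑ w : Fin n → μ.support, (∏ i, μ (w i)) *
        (wordLen (μ.support : Set G) (List.ofFn fun i => (w i : G)).prod : ℝ) := by
    unfold elw
    refine Finset.sum_congr rfl fun w _ => ?_
    rw [hTs, eq34 _ hinv]
  have hp : ∀ w : Fin n → μ.support, 0 ≤ ∏ i, μ (w i) := fun w =>
    Finset.prod_nonneg fun i _ => h0 _
  have hn0 : ∀ (A : Set G) (w : Fin n → μ.support),
      (0 : ℝ) ≤ (wordLen A (List.ofFn fun i => (w i : G)).prod : ℝ) := fun A w => Nat.cast_nonneg _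
  rw [e1]
  unfold expLen
  constructor
  · rw [div_mul_eq_mul_div, one_mul, div_le_iff₀ (by positivity), Finset.sum_mul]
    refine Finset.sum_le_sum fun w _ => ?_
    rw [mul_assoc]
    refine mul_le_mul_of_nonneg_left ?_ (hp w)
    have h3 := h2 (List.ofFn fun i => (w i : G)).prod
    have h4 : (wordLen (μ.support : Set G) (List.ofFn fun i => (w i : G)).prod : ℝ) ≤
        C2 * (wordLen (S : Set G) (List.ofFn fun i => (w i : G)).prod : ℝ) := by
      exact_mod_cast h3
    nlinarith [hn0 (S : Set G) w]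
  · rw [Finset.mul_sum]
    refine Finset.sum_le_sum fun w _ => ?_
    rw [mul_left_comm]
    refine mul_le_mul_of_nonneg_left ?_ (hp w)
    have h3 := h1 (List.ofFn fun i => (w i : G)).prod
    have h4 : (wordLen (S : Set G) (List.ofFn fun i => (w i : G)).prod : ℝ) ≤
        C1 * (wordLen (μ.support : Set G) (List.ofFn fun i => (w i : G)).prod : ℝ) := by
      exact_mod_cast h3
    nlinarith [hn0 (μ.support : Set G) w]

theorem tendsto_of_compare (x y : ℕ → ℝ) (c C β : ℝ) (hc : 0 < c) (hC : 0 < C) (h0 : ∀ n, 0 ≤ x n)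
    (h : ∀ n, c * x n ≤ y n ∧ y n ≤ C * x n)
    (hx : Filter.Tendsto (fun n : ℕ => Real.log (x n) / Real.log n) Filter.atTop (nhds β)) :
    Filter.Tendsto (fun n : ℕ => Real.log (y n) / Real.log n) Filter.atTop (nhds β) := by
  have hlog : Filter.Tendsto (fun n : ℕ => Real.log n) Filter.atTop Filter.atTop :=
    Real.tendsto_log_atTop.comp tendsto_natCast_atTop_atTop
  have hz : Filter.Tendsto (fun n : ℕ => (Real.log (y n) - Real.log (x n)) / Real.log n)
      Filter.atTop (nhds 0) := by
    have hD : Filter.Tendsto (fun n : ℕ => (|Real.log c| + |Real.log C|) / Real.log n)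
        Filter.atTop (nhds 0) := Filter.Tendsto.div_atTop tendsto_const_nhds hlog
    refine squeeze_zero_norm' ?_ hD
    filter_upwards [hlog.eventually_gt_atTop 0] with n hn
    rw [Real.norm_eq_abs, abs_div, abs_of_pos hn]
    refine div_le_div_of_nonneg_right ?_ hn.le
    obtain ⟨h1, h2⟩ := h n
    rcases (h0 n).eq_or_lt with h3 | h3
    · rw [← h3] at h1 h2
      rw [← h3]
      have h4 : y n = 0 := le_antisymm (by linarith) (by linarith)
      rw [h4, sub_self, abs_zero]
      positivity
    · have h4 : 0 < y n := lt_of_lt_of_le (mul_pos hc h3) h1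
      have h5 := Real.log_le_log (mul_pos hc h3) h1
      have h6 := Real.log_le_log h4 h2
      rw [Real.log_mul hc.ne' h3.ne'] at h5
      rw [Real.log_mul hC.ne' h3.ne'] at h6
      rw [abs_le]
      have h7 := neg_abs_le (Real.log c)
      have h8 := le_abs_self (Real.log C)
      have h9 := abs_nonneg (Real.log c)
      have h10 := abs_nonneg (Real.log C)
      constructor <;> linarith
  have h3 := hx.add hz
  rw [add_zero] at h3
  refine h3.congr fun n => ?_
  rw [← add_div]
  congr 1
  ring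

end Pool.Agent.Helper13.MW
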