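import Pool.Agent.Helper13.MS.Defs

/-!
# Project MW: the weighted versions (arbitrary symmetric finitely supported step laws)
-/

set_option autoImplicit false

namespace Pool.Agent.Helper13.MW

open Pool.Agent.Helper13.MS

/-- the expected word length after `n` independent steps, a step is `s ω` with probability `p ω` -/
noncomputable def elw {G Ω : Type} [Group G] [Fintype Ω] (s : Ω → G) (p : Ω → ℝ) (n : ℕ) : ℝ :=
  ∑ w : Fin n → Ω, (∏ i, p (w i)) * (wordLength (Set.range s) (List.ofFn fun i => s (w i)).prod : ℝ)

/-- the Markov operator of the right random walk with steps `s ω` of probability `p ω` -/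
noncomputable def Qw {G Ω : Type} [Group G] [Fintype Ω] (s : Ω → G) (p : Ω → ℝ) (f : G → ℝ) : G → ℝ :=
  fun g => ∑ ω, p ω * f (g * s ω)

/-- positive weights of total mass one, invariant under `σ` -/
structure Wt {Ω : Type} [Fintype Ω] (p : Ω → ℝ) (σ : Ω ≃ Ω) : Prop where
  pos : ∀ ω, 0 < p ω
  sum : ∑ ω, p ω = 1
  symm : ∀ ω, p (σ ω) = p ω

open Classical in
/-- first block of a large step: read two letters `a, b`; record the position before them if they are `α, β` -/
noncomputable def Bw {V Ω : Type} [CommGroup V] [Fintype Ω] (s : Ω → V) (p : Ω → ℝ) (α β : Ω) (F : Multiset V → V → ℝ) :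
    Multiset V → V → ℝ :=
  fun S v => ∑ a, ∑ b, p a * p b * F (if a = α ∧ b = β then v ::ₘ S else S) (v * s a * s b)

/-- a large step: `m` blocks of two letters, the first one is a recording block -/
noncomputable def Aw {V Ω : Type} [CommGroup V] [Fintype Ω] (s : Ω → V) (p : Ω → ℝ) (α β : Ω) (m : ℕ) (F : Multiset V → V → ℝ) :
    Multiset V → V → ℝ :=
  Bw s p α β fun S => (Qw s p)^[2 * m - 2] (F S)

end Pool.Agent.Helper13.MW
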