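import Pool.Agent.Helper13.MW.QE
import Pool.Agent.Helper13.MS.FN

/-!
# MW-FN: the real asymptotics for a general sequence

Adapt MS/FN.lean: only `a n ≤ n`, `a m ≤ a (m + k) + k` and `0 ≤ a n` are used.
-/

set_option autoImplicit false

namespace Pool.Agent.Helper13.MW

open Pool.Agent.Helper13.MS

private lemma fin45 (E : ℕ → ℝ) (hle : ∀ n, E n ≤ n)
    (hge : ∀ ε : ℝ, 0 < ε → ∀ᶠ n : ℕ in Filter.atTop, (n : ℝ) ^ (1 - ε) ≤ E n) :
    Filter.Tendsto (fun n : ℕ => Real.log (E n) / Real.log n) Filter.atTop (nhds 1) := by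
  rw [tendsto_order]
  constructor
  · intro a ha
    have hε : 0 < (1 - a) / 2 := by linarith
    filter_upwards [hge _ hε, Filter.eventually_ge_atTop 2] with n hn h2
    have hn1 : (1 : ℝ) < n := by exact_mod_cast h2
    have hlog : 0 < Real.log n := Real.log_pos hn1
    have hpos : (0 : ℝ) < (n : ℝ) ^ (1 - (1 - a) / 2) := Real.rpow_pos_of_pos (by linarith) _
    have h3 := Real.log_le_log hpos hn
    rw [Real.log_rpow (by linarith)] at h3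
    rw [lt_div_iff₀ hlog]
    have h4 : a * Real.log n < (1 - (1 - a) / 2) * Real.log n :=
      mul_lt_mul_of_pos_right (by linarith) hlog
    linarith
  · intro a ha
    filter_upwards [hge 1 one_pos, Filter.eventually_ge_atTop 2] with n hn h2
    have hn1 : (1 : ℝ) < n := by exact_mod_cast h2
    have hlog : 0 < Real.log n := Real.log_pos hn1
    have hpos : (0 : ℝ) < E n := lt_of_lt_of_le (Real.rpow_pos_of_pos (by linarith) _) hn
    have h3 := Real.log_le_log hpos (hle n)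
    have h4 : Real.log (E n) / Real.log n ≤ 1 := by
      rw [div_le_one hlog]
      exact h3
    linarith

private lemma small45 (y t : ℝ) (hy : 0 < y) (ht : 0 < t) :
    ∀ᶠ n : ℕ in Filter.atTop, (n : ℝ) ^ (-y) ≤ t := by
  have h1 : Filter.Tendsto (fun n : ℕ => (n : ℝ) ^ (-y)) Filter.atTop (nhds 0) :=
    (tendsto_rpow_neg_atTop hy).comp tendsto_natCast_atTop_atTop
  filter_upwards [h1.eventually_lt_const ht] with n hn
  exact hn.le

private lemma root45 (p : ℕ) (hp : 1 ≤ p) (n : ℕ) : ∃ c : ℕ, c ^ p ≤ n ∧ n < (c + 1) ^ p := by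
  have hex : ∃ m, n < (m + 1) ^ p := by
    refine ⟨n, ?_⟩
    calc n < n + 1 := Nat.lt_succ_self n
      _ = (n + 1) ^ 1 := (pow_one _).symm
      _ ≤ (n + 1) ^ p := Nat.pow_le_pow_right (Nat.succ_pos n) hp
  classical
  refine ⟨Nat.find hex, ?_, Nat.find_spec hex⟩
  rcases Nat.eq_zero_or_pos (Nat.find hex) with h | h
  · rw [h, zero_pow (by omega)]
    exact Nat.zero_le n
  · have h1 := Nat.find_min hex (m := Nat.find hex - 1) (by omega)
    rw [not_lt, Nat.sub_add_cancel h] at h1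
    exact h1

private lemma core45 (E : ℕ → ℝ) (hadd : ∀ m k : ℕ, E m ≤ E (m + k) + k)
    (δ C : ℝ) (hδ : 0 < δ)
    (h : ∀ K : ℕ, ∃ c0 : ℕ, ∀ c : ℕ, c0 ≤ c → ∀ J : ℕ, J ≤ c ^ (4 * (K + 1)) → δ * J - C ≤ E (2 * c ^ 8 * J)) :
    ∀ ε : ℝ, 0 < ε → ∀ᶠ n : ℕ in Filter.atTop, (n : ℝ) ^ (1 - ε) ≤ E n := by
  intro ε hε
  obtain ⟨K0, hK0⟩ := exists_nat_gt (2 / ε)
  obtain ⟨K, hK⟩ : ∃ K : ℕ, K = max K0 3 := ⟨_, rfl⟩
  have hK3 : 3 ≤ K := by rw [hK]; exact le_max_right _ _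
  have hKr : (3 : ℝ) ≤ K := by exact_mod_cast hK3
  have hKε : 2 / ε < K := by
    have : (K0 : ℝ) ≤ K := by
      rw [hK]
      exact_mod_cast le_max_left _ _
    linarith
  obtain ⟨c0, hc0⟩ := h K
  obtain ⟨p, hp⟩ : ∃ p : ℕ, p = 4 * K + 8 := ⟨_, rfl⟩
  have hpr : (p : ℝ) = 4 * K + 8 := by rw [hp]; push_cast; ring
  have hp0 : (0 : ℝ) < p := by rw [hpr]; positivity
  obtain ⟨θ, hθ⟩ : ∃ θ : ℝ, θ = 8 / p := ⟨_, rfl⟩
  have hθ0 : 0 < θ := by rw [hθ]; positivity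
  have hθε : θ < ε := by
    rw [hθ, div_lt_iff₀ hp0, hpr]
    rw [div_lt_iff₀ hε] at hKε
    nlinarith
  have hθh : θ < 1 / 2 := by
    rw [hθ, div_lt_iff₀ hp0, hpr]
    linarith
  have hA : 0 < δ + |C| := by positivity
  filter_upwards [small45 (1 - 2 * θ) (δ / 16) (by linarith) (by positivity),
    small45 (ε - θ) (δ / 8) (by linarith) (by positivity),
    small45 (1 - θ) (δ / 8 / (δ + |C|)) (by linarith) (by positivity),
    Filter.eventually_ge_atTop ((max c0 (2 ^ p) + 1) ^ p)] with n e1 e2 e3 hn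
  obtain ⟨c, hc1, hc2⟩ := root45 p (by omega) n
  have hcM : max c0 (2 ^ p) ≤ c := by
    by_contra hcon
    push Not at hcon
    have h1 : (c + 1) ^ p ≤ (max c0 (2 ^ p) + 1) ^ p := Nat.pow_le_pow_left (by omega) p
    omega
  have hcc0 : c0 ≤ c := (le_max_left _ _).trans hcM
  have hc2p : 2 ^ p ≤ c := (le_max_right _ _).trans hcM
  have hcpos : 0 < c := lt_of_lt_of_le (by positivity) hc2p
  have hn0 : 0 < n := lt_of_lt_of_le (by positivity) hn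
  have hnr : (0 : ℝ) < n := by exact_mod_cast hn0
  have hcr : (0 : ℝ) < c := by exact_mod_cast hcpos
  obtain ⟨J, hJ⟩ : ∃ J, J = n / (2 * c ^ 8) := ⟨_, rfl⟩
  have hJle : J ≤ c ^ (4 * (K + 1)) := by
    rw [hJ]
    apply Nat.div_le_of_le_mul
    have h1 : (c + 1) ^ p ≤ (2 * c) ^ p := Nat.pow_le_pow_left (by omega) p
    have h2 : (2 * c) ^ p = 2 ^ p * c ^ p := mul_pow _ _ _
    have h3 : 2 ^ p * c ^ p ≤ c * c ^ p := Nat.mul_le_mul_right _ hc2p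
    have h4 : c * c ^ p = c ^ (p + 1) := by ring
    have h5 : c ^ (p + 1) ≤ c ^ (p + 4) := Nat.pow_le_pow_right hcpos (by omega)
    have h6 : c ^ (p + 4) = c ^ 8 * c ^ (4 * (K + 1)) := by
      rw [← pow_add, hp]
      congr 1
      ring
    have h7 : c ^ 8 * c ^ (4 * (K + 1)) ≤ 2 * c ^ 8 * c ^ (4 * (K + 1)) := by
      rw [mul_assoc]
      omega
    omega
  have hE := hc0 c hcc0 J hJle
  have hmn : 2 * c ^ 8 * J ≤ n := by
    rw [hJ]
    exact Nat.mul_div_le n _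
  have hlt : n < 2 * c ^ 8 * J + 2 * c ^ 8 := by
    rw [hJ]
    have h1 := Nat.lt_mul_div_succ n (show 0 < 2 * c ^ 8 by positivity)
    rw [Nat.mul_succ] at h1
    exact h1
  have hE2 := hadd (2 * c ^ 8 * J) (n - 2 * c ^ 8 * J)
  rw [Nat.add_sub_cancel' hmn] at hE2
  have hk : ((n - 2 * c ^ 8 * J : ℕ) : ℝ) ≤ 2 * (c : ℝ) ^ 8 := by
    have h1 : n - 2 * c ^ 8 * J ≤ 2 * c ^ 8 := by omega
    exact_mod_cast h1
  -- powers
  have hcθ : (c : ℝ) ^ 8 ≤ (n : ℝ) ^ θ := by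
    have h1 : ((c : ℝ) ^ p) ≤ n := by exact_mod_cast hc1
    have h2 : ((c : ℝ) ^ p) ^ θ ≤ (n : ℝ) ^ θ := Real.rpow_le_rpow (by positivity) h1 hθ0.le
    have h3 : ((c : ℝ) ^ p) ^ θ = (c : ℝ) ^ 8 := by
      rw [← Real.rpow_natCast (c : ℝ) p, ← Real.rpow_mul hcr.le, hθ, mul_div_cancel₀ _ hp0.ne']
      rw [show (8 : ℝ) = ((8 : ℕ) : ℝ) by norm_num, Real.rpow_natCast]
    rw [h3] at h2
    exact h2
  have hu : 0 < (n : ℝ) ^ (1 - θ) := Real.rpow_pos_of_pos hnr _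
  have hnθ : 0 < (n : ℝ) ^ θ := Real.rpow_pos_of_pos hnr _
  have hJr : (n : ℝ) ^ (1 - θ) / 2 - 1 ≤ J := by
    have h1 : (n : ℝ) < 2 * (c : ℝ) ^ 8 * (J + 1) := by
      have : n < 2 * c ^ 8 * (J + 1) := by
        rw [mul_add, mul_one]
        exact hlt
      exact_mod_cast this
    have h2 : (2 : ℝ) * (c : ℝ) ^ 8 * (J + 1) ≤ 2 * (n : ℝ) ^ θ * (J + 1) := by
      apply mul_le_mul_of_nonneg_right _ (by positivity)
      linarith
    have h3 : (n : ℝ) = (n : ℝ) ^ θ * (n : ℝ) ^ (1 - θ) := by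
      rw [← Real.rpow_add hnr]
      simp
    have h4 : (n : ℝ) ^ θ * (n : ℝ) ^ (1 - θ) ≤ (n : ℝ) ^ θ * (2 * ((J : ℝ) + 1)) := by
      rw [← h3]
      linarith
    have h5 := le_of_mul_le_mul_left h4 hnθ
    linarith
  have f1 : (n : ℝ) ^ θ ≤ (n : ℝ) ^ (1 - θ) * (δ / 16) := by
    have h1 : (n : ℝ) ^ θ = (n : ℝ) ^ (1 - θ) * (n : ℝ) ^ (-(1 - 2 * θ)) := by
      rw [← Real.rpow_add hnr]
      congr 1
      ring
    rw [h1]
    exact mul_le_mul_of_nonneg_left e1 hu.le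
  have f2 : (n : ℝ) ^ (1 - ε) ≤ (n : ℝ) ^ (1 - θ) * (δ / 8) := by
    have h1 : (n : ℝ) ^ (1 - ε) = (n : ℝ) ^ (1 - θ) * (n : ℝ) ^ (-(ε - θ)) := by
      rw [← Real.rpow_add hnr]
      congr 1
      ring
    rw [h1]
    exact mul_le_mul_of_nonneg_left e2 hu.le
  have f3 : δ + |C| ≤ (n : ℝ) ^ (1 - θ) * (δ / 8) := by
    have h1 : (1 : ℝ) = (n : ℝ) ^ (1 - θ) * (n : ℝ) ^ (-(1 - θ)) := by
      rw [← Real.rpow_add hnr]
      simp
    have h2 : (1 : ℝ) ≤ (n : ℝ) ^ (1 - θ) * (δ / 8 / (δ + |C|)) := by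
      exact h1.le.trans (mul_le_mul_of_nonneg_left e3 hu.le)
    have h3 := mul_le_mul_of_nonneg_right h2 hA.le
    rw [one_mul] at h3
    refine h3.trans (le_of_eq ?_)
    field_simp
  have hCle := le_abs_self C
  have hδJ : δ * ((n : ℝ) ^ (1 - θ) / 2 - 1) ≤ δ * J := mul_le_mul_of_nonneg_left hJr hδ.le
  nlinarith

theorem tendsto_of_multi (a : ℕ → ℝ) (h0 : ∀ n, 0 ≤ a n) (h1 : ∀ n, a n ≤ n) (h2 : ∀ m k, a m ≤ a (m + k) + k)
    (δ C : ℝ) (hδ : 0 < δ)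
    (h : ∀ K : ℕ, ∃ c0 : ℕ, ∀ c : ℕ, c0 ≤ c → ∀ J : ℕ, J ≤ c ^ (4 * (K + 1)) → δ * J - C ≤ a (2 * c ^ 8 * J)) :
    Filter.Tendsto (fun n : ℕ => Real.log (a n) / Real.log n) Filter.atTop (nhds 1) := by
  have _ := h0
  exact fin45 a h1 (core45 a h2 δ C hδ h)

theorem tendsto_of_linear (a : ℕ → ℝ) (h1 : ∀ n, a n ≤ n) (δ : ℝ) (hδ : 0 < δ) (n0 : ℕ) (h : ∀ n : ℕ, n0 ≤ n → δ * n ≤ a n) :
    Filter.Tendsto (fun n : ℕ => Real.log (a n) / Real.log n) Filter.atTop (nhds 1) := by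
  refine fin45 a h1 fun ε hε => ?_
  filter_upwards [small45 ε δ hε hδ, Filter.eventually_ge_atTop n0, Filter.eventually_ge_atTop 1] with n e1 hn hn1
  have hnr : (0 : ℝ) < n := by exact_mod_cast hn1
  refine le_trans ?_ (h n hn)
  have h2 : (n : ℝ) ^ (1 - ε) = n * (n : ℝ) ^ (-ε) := by
    rw [sub_eq_add_neg, Real.rpow_add hnr, Real.rpow_one]
  rw [h2, mul_comm δ]
  exact mul_le_mul_of_nonneg_left e1 hnr.le

end Pool.Agent.Helper13.MW
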