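import Pool.Agent.Helper13.MW.QE
import Pool.Agent.Helper13.MT.L2

/-!
# MW-L2: weighted version of MT/L2.lean
-/

set_option autoImplicit false

namespace Pool.Agent.Helper13.MW

open Pool.Agent.Helper13.MS

section

variable {G Γ : Type} [Group G] [Group Γ] [Fintype Γ]

set_option linter.unusedSectionVars false

private noncomputable def nn99 (b : G → Γ → ℝ) (g : G) : ℝ := ∑ γ, (b g γ) ^ 2

private noncomputable def zz99 (q : G →* Γ) (b : G → Γ → ℝ) (g h : G) : ℝ := ∑ γ, b g γ * b h ((q g)⁻¹ * γ)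

private theorem nn_nonneg99 (b : G → Γ → ℝ) (g : G) : 0 ≤ nn99 b g := Finset.sum_nonneg fun _ _ => sq_nonneg _

private theorem shift99 (q : G →* Γ) (b : G → Γ → ℝ) (g h : G) : ∑ γ, (b h ((q g)⁻¹ * γ)) ^ 2 = nn99 b h :=
  Equiv.sum_comp (Equiv.mulLeft (q g)⁻¹) fun γ => (b h γ) ^ 2

private theorem nn_mul99 (q : G →* Γ) (b : G → Γ → ℝ) (hb : ∀ g h γ, b (g * h) γ = b g γ + b h ((q g)⁻¹ * γ)) (g h : G) :
    nn99 b (g * h) = nn99 b g + 2 * zz99 q b g h + nn99 b h := by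
  rw [← shift99 q b g h]
  unfold nn99 zz99
  rw [Finset.mul_sum, ← Finset.sum_add_distrib, ← Finset.sum_add_distrib]
  refine Finset.sum_congr rfl fun γ _ => ?_
  rw [hb]
  ring

private theorem zz_sq99 (q : G →* Γ) (b : G → Γ → ℝ) (g h : G) : zz99 q b g h ^ 2 ≤ nn99 b g * nn99 b h := by
  rw [← shift99 q b g h]
  exact Finset.sum_mul_sq_le_sq_mul_sq _ _ _

private theorem sqrt_mul_le99 (q : G →* Γ) (b : G → Γ → ℝ) (hb : ∀ g h γ, b (g * h) γ = b g γ + b h ((q g)⁻¹ * γ))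
    (g h : G) : Real.sqrt (nn99 b (g * h)) ≤ Real.sqrt (nn99 b g) + Real.sqrt (nn99 b h) := by
  have hx := nn_nonneg99 b g
  have hy := nn_nonneg99 b h
  rw [Real.sqrt_le_left (by positivity)]
  have h1 : zz99 q b g h ≤ Real.sqrt (nn99 b g) * Real.sqrt (nn99 b h) := by
    rw [← Real.sqrt_mul hx]
    exact Real.le_sqrt_of_sq_le (zz_sq99 q b g h)
  have h2 := Real.sq_sqrt hx
  have h3 := Real.sq_sqrt hy
  rw [nn_mul99 q b hb]
  nlinarith

private theorem cubic99 (x a : ℝ) (hx : 0 ≤ x) (ha : 0 < a) : x ^ 2 / a - x ^ 4 / (4 * a ^ 3) ≤ x := by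
  have h1 : 0 ≤ x ^ 3 - 4 * a ^ 2 * x + 4 * a ^ 3 := by
    have h2 : 0 ≤ (x - 6 / 5 * a) ^ 2 * (x + 12 / 5 * a) := by positivity
    have h3 : 0 ≤ a ^ 2 * x := by positivity
    have h4 : 0 ≤ a ^ 3 := by positivity
    nlinarith
  have h5 : x - (x ^ 2 / a - x ^ 4 / (4 * a ^ 3)) = x * (x ^ 3 - 4 * a ^ 2 * x + 4 * a ^ 3) / (4 * a ^ 3) := by
    field_simp
    ring
  have h6 : 0 ≤ x * (x ^ 3 - 4 * a ^ 2 * x + 4 * a ^ 3) / (4 * a ^ 3) := by positivity
  linarith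

end

theorem sqrt_lower_of_cocycle {G Ω Γ : Type} [Group G] [Fintype Ω] [Nonempty Ω] [Group Γ] [Fintype Γ] (s : Ω → G) (σ : Ω ≃ Ω)
    (hσ : ∀ ω, s (σ ω) = (s ω)⁻¹) (hs : Subgroup.closure (Set.range s) = ⊤) (p : Ω → ℝ) (hp : Wt p σ)
    (q : G →* Γ) (b : G → Γ → ℝ)
    (hb : ∀ g h γ, b (g * h) γ = b g γ + b h ((q g)⁻¹ * γ)) (hharm : ∀ γ, ∑ ω, p ω * b (s ω) γ = 0)
    (hne : ∃ ω γ, b (s ω) γ ≠ 0) :
    ∃ c : ℝ, 0 < c ∧ ∀ n : ℕ, 1 ≤ n → c * Real.sqrt n ≤ elw s p n := by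
  classical
  have hp0 : ∀ ω, 0 ≤ p ω := fun ω => (hp.pos ω).le
  have hp1 : ∀ ω, p ω ≤ 1 := fun ω => by
    rw [← hp.sum]
    exact Finset.single_le_sum (f := p) (fun ω _ => hp0 ω) (Finset.mem_univ ω)
  set K : ℝ := ∑ ω, nn99 b (s ω) with hK
  have hKω : ∀ ω, nn99 b (s ω) ≤ K := fun ω =>
    Finset.single_le_sum (f := fun ω => nn99 b (s ω)) (fun ω _ => nn_nonneg99 b _) (Finset.mem_univ ω)
  set v : ℝ := ∑ ω, p ω * nn99 b (s ω) with hv
  have hvω : ∀ ω, p ω * nn99 b (s ω) ≤ v := fun ω =>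
    Finset.single_le_sum (f := fun ω => p ω * nn99 b (s ω)) (fun ω _ => mul_nonneg (hp0 ω) (nn_nonneg99 b _))
      (Finset.mem_univ ω)
  have hvK : v ≤ K := by
    refine Finset.sum_le_sum fun ω _ => ?_
    have h1 := nn_nonneg99 b (s ω)
    have h2 := hp1 ω
    nlinarith
  have hvpos : 0 < v := by
    obtain ⟨ω, γ, h⟩ := hne
    have h1 : (b (s ω) γ) ^ 2 ≤ nn99 b (s ω) :=
      Finset.single_le_sum (f := fun γ => (b (s ω) γ) ^ 2) (fun _ _ => sq_nonneg _) (Finset.mem_univ γ)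
    have h2 : 0 < (b (s ω) γ) ^ 2 := by positivity
    have h3 : 0 < p ω * nn99 b (s ω) := mul_pos (hp.pos ω) (by linarith)
    linarith [hvω ω]
  have hKpos : 0 < K := lt_of_lt_of_le hvpos hvK
  have hb1 : ∀ γ, b 1 γ = 0 := by
    intro γ
    have h := hb 1 1 γ
    rw [mul_one, map_one, inv_one, one_mul] at h
    linarith
  have hN1 : nn99 b 1 = 0 := by
    unfold nn99
    simp [hb1]
  have hZ : ∀ g, ∑ ω, p ω * zz99 q b g (s ω) = 0 := by
    intro g
    unfold zz99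
    simp only [Finset.mul_sum]
    rw [Finset.sum_comm]
    refine Finset.sum_eq_zero fun γ _ => ?_
    have h1 : ∀ ω, p ω * (b g γ * b (s ω) ((q g)⁻¹ * γ)) = b g γ * (p ω * b (s ω) ((q g)⁻¹ * γ)) := fun ω => by ring
    simp only [h1]
    rw [← Finset.mul_sum, hharm, mul_zero]
  -- first moment
  have hQ1 : ∀ g, Qw s p (nn99 b) g = 1 * nn99 b g + v := by
    intro g
    show ∑ ω, p ω * nn99 b (g * s ω) = _
    have h2 : ∀ ω, p ω * nn99 b (g * s ω) = p ω * nn99 b g + 2 * (p ω * zz99 q b g (s ω)) + p ω * nn99 b (s ω) := by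
      intro ω
      rw [nn_mul99 q b hb g (s ω)]
      ring
    simp only [h2]
    rw [Finset.sum_add_distrib, Finset.sum_add_distrib, ← Finset.mul_sum, hZ, ← Finset.sum_mul, hp.sum]
    ring
  have m2 : ∀ n : ℕ, (Qw s p)^[n] (nn99 b) 1 = n * v := by
    intro n
    induction n with
    | zero => simp [hN1]
    | succ n ih =>
      have h1 : Qw s p (nn99 b) = fun g => 1 * nn99 b g + v := funext hQ1
      rw [Function.iterate_succ_apply, h1, Qw_iterate_affine s p hp.sum, ih]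
      push_cast
      ring
  -- second moment
  have hQ2 : ∀ g, Qw s p (fun g => (nn99 b g) ^ 2) g ≤ (nn99 b g) ^ 2 + (8 * K * nn99 b g + 3 * K ^ 2) := by
    intro g
    have hx := nn_nonneg99 b g
    have h1 : ∀ ω, (nn99 b (g * s ω)) ^ 2 ≤
        (nn99 b g) ^ 2 + (8 * K * nn99 b g + 3 * K ^ 2) + 4 * nn99 b g * zz99 q b g (s ω) := by
      intro ω
      have hy := nn_nonneg99 b (s ω)
      have hyK := hKω ω
      have hz := zz_sq99 q b g (s ω)
      rw [nn_mul99 q b hb g (s ω)]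
      generalize nn99 b g = X at *
      generalize nn99 b (s ω) = Y at *
      generalize zz99 q b g (s ω) = Z at *
      have h2 : X * Y ≤ X * K := mul_le_mul_of_nonneg_left hyK hx
      have h3 : Y ^ 2 ≤ K ^ 2 := pow_le_pow_left₀ hy hyK 2
      nlinarith [sq_nonneg (Z - Y)]
    show ∑ ω, p ω * (nn99 b (g * s ω)) ^ 2 ≤ _
    calc ∑ ω, p ω * (nn99 b (g * s ω)) ^ 2
        ≤ ∑ ω, (p ω * ((nn99 b g) ^ 2 + (8 * K * nn99 b g + 3 * K ^ 2)) +
            4 * nn99 b g * (p ω * zz99 q b g (s ω))) := by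
          refine Finset.sum_le_sum fun ω _ => ?_
          have := mul_le_mul_of_nonneg_left (h1 ω) (hp0 ω)
          refine this.trans (le_of_eq ?_)
          ring
      _ = (nn99 b g) ^ 2 + (8 * K * nn99 b g + 3 * K ^ 2) := by
          rw [Finset.sum_add_distrib, ← Finset.mul_sum, hZ, ← Finset.sum_mul, hp.sum]
          ring
  have m4 : ∀ n : ℕ, (Qw s p)^[n] (fun g => (nn99 b g) ^ 2) 1 ≤ 7 * K ^ 2 * (n : ℝ) ^ 2 := by
    intro n
    induction n with
    | zero => simp [hN1]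
    | succ n ih =>
      rw [Function.iterate_succ_apply]
      refine (Qw_iterate_mono s p hp0 hQ2 n 1).trans ?_
      rw [Qw_iterate_add, Qw_iterate_affine s p hp.sum, m2]
      push_cast
      have hn : (0 : ℝ) ≤ n := Nat.cast_nonneg n
      have h1 : 8 * K * (n * v) ≤ 8 * K * (n * K) := by
        refine mul_le_mul_of_nonneg_left (mul_le_mul_of_nonneg_left hvK hn) (by positivity)
      nlinarith [mul_nonneg hn (sq_nonneg K), sq_nonneg K]
  -- word length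
  have hW : ∀ g, Real.sqrt (nn99 b g) ≤ Real.sqrt K * (wordLength (Set.range s) g : ℝ) := by
    intro g
    obtain ⟨w, hw, rfl⟩ := exists_word s σ hσ hs g
    rw [← hw]
    clear hw
    induction w with
    | nil => simp [hN1]
    | cons ω w ih =>
      rw [List.map_cons, List.prod_cons, List.length_cons]
      refine (sqrt_mul_le99 q b hb _ _).trans ?_
      have h1 := Real.sqrt_le_sqrt (hKω ω)
      push_cast
      nlinarith
  -- conclusion
  set A : ℝ := Real.sqrt (7 * K ^ 2 / (2 * v)) with hA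
  have hApos : 0 < A := Real.sqrt_pos.mpr (by positivity)
  have hA2 : A ^ 2 = 7 * K ^ 2 / (2 * v) := Real.sq_sqrt (by positivity)
  have hsK : 0 < Real.sqrt K := Real.sqrt_pos.mpr hKpos
  refine ⟨v / (2 * A * Real.sqrt K), by positivity, fun n hn => ?_⟩
  have hn0 : (0 : ℝ) < n := by exact_mod_cast hn
  set r : ℝ := Real.sqrt n with hr
  have hr0 : 0 < r := Real.sqrt_pos.mpr hn0
  have hr2 : r ^ 2 = n := Real.sq_sqrt hn0.le
  have ha : 0 < A * r := by positivity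
  have h1 : ∀ g, (1 / (A * r)) * nn99 b g + (-(1 / (4 * (A * r) ^ 3))) * (nn99 b g) ^ 2 ≤
      Real.sqrt K * (wordLength (Set.range s) g : ℝ) := by
    intro g
    refine le_trans ?_ (hW g)
    have h2 := cubic99 (Real.sqrt (nn99 b g)) (A * r) (Real.sqrt_nonneg _) ha
    have h3 : Real.sqrt (nn99 b g) ^ 2 = nn99 b g := Real.sq_sqrt (nn_nonneg99 b g)
    have h4 : Real.sqrt (nn99 b g) ^ 4 = (nn99 b g) ^ 2 := by
      rw [show (4 : ℕ) = 2 * 2 from rfl, pow_mul, h3]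
    rw [h3, h4] at h2
    refine le_trans (le_of_eq ?_) h2
    ring
  have h5 := Qw_iterate_mono s p hp0 h1 n 1
  rw [Qw_iterate_add, Qw_iterate_smul, Qw_iterate_smul, Qw_iterate_smul, m2, ← elw_eq] at h5
  have h6 : (1 / (4 * (A * r) ^ 3)) * (Qw s p)^[n] (fun g => (nn99 b g) ^ 2) 1 ≤ (1 / (4 * (A * r) ^ 3)) * (7 * K ^ 2 * (n : ℝ) ^ 2) :=
    mul_le_mul_of_nonneg_left (m4 n) (by positivity)
  have h7 : (1 / (A * r)) * (n * v) - (1 / (4 * (A * r) ^ 3)) * (7 * K ^ 2 * (n : ℝ) ^ 2) = v * r / (2 * A) := by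
    have h8 : 7 * K ^ 2 = A ^ 2 * (2 * v) := by
      rw [hA2]
      field_simp
    rw [h8, ← hr2]
    field_simp
    ring
  have h9 : v * r / (2 * A) ≤ Real.sqrt K * elw s p n := by linarith
  rw [div_mul_eq_mul_div, div_le_iff₀ (by positivity)]
  have h10 : v * r ≤ Real.sqrt K * elw s p n * (2 * A) := by
    rwa [div_le_iff₀ (by positivity)] at h9
  nlinarith

end Pool.Agent.Helper13.MW
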