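import Pool.Agent.Helper13.MW.L1
import Pool.Agent.Helper13.MW.L2
import Pool.Agent.Helper13.MT.L3

/-!
# MW-L3: weighted version of MT/L3.lean
-/

set_option autoImplicit false

namespace Pool.Agent.Helper13.MW

open Pool.Agent.Helper13.MS

/-- a finitely generated infinite commutative group maps nontrivially to the integers -/
private theorem exists_hom24 (A : Type) [CommGroup A] [Group.FG A] [Infinite A] :
    ∃ f : A →* Multiplicative ℤ, ∃ a, f a ≠ 1 := by
  obtain ⟨ι, j, hι, hj, p, hp, e, ⟨φ⟩⟩ := CommGroup.equiv_free_prod_prod_multiplicative_zmod A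
  rcases isEmpty_or_nonempty j with hn | hn
  · exfalso
    haveI : ∀ i, NeZero (p i ^ e i) := fun i => ⟨pow_ne_zero _ (hp i).ne_zero⟩
    haveI : ∀ i, Finite (Multiplicative (ZMod (p i ^ e i))) := fun i => inferInstanceAs (Finite (ZMod (p i ^ e i)))
    haveI : Finite A := Finite.of_equiv _ φ.symm.toEquiv
    exact not_finite A
  · obtain ⟨i0⟩ := hn
    refine ⟨(Pi.evalMonoidHom (fun _ : j => Multiplicative ℤ) i0).comp ((MonoidHom.fst _ _).comp φ.toMonoidHom), φ.symm (fun _ => Multiplicative.ofAdd 1, 1), ?_⟩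
    intro h
    simp at h

theorem sqrt_lower_of_finite_abelianization {G Ω : Type} [Group G] [Fintype Ω] [Nonempty Ω] (s : Ω → G) (σ : Ω ≃ Ω)
    (hσ : ∀ ω, s (σ ω) = (s ω)⁻¹) (hs : Subgroup.closure (Set.range s) = ⊤) (p : Ω → ℝ) (hp : Wt p σ)
    (hab : ∀ a ∈ commutator G, ∀ b ∈ commutator G, a * b = b * a) (hfin : Finite (Abelianization G)) (hinf : Infinite G) :
    ∃ c : ℝ, 0 < c ∧ ∀ n : ℕ, 1 ≤ n → c * Real.sqrt n ≤ elw s p n := by
  classical
  haveI : Finite (Abelianization G) := hfin
  letI : Fintype (Abelianization G) := Fintype.ofFinite _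
  haveI : Infinite G := hinf
  haveI hFG : Group.FG G := by
    rw [Group.fg_iff]
    exact ⟨Set.range s, hs, Set.finite_range s⟩
  haveI hfi : (commutator G).FiniteIndex := by
    haveI : Finite (G ⧸ commutator G) := hfin
    exact (commutator G).finiteIndex_of_finite_quotient
  letI cM : CommGroup (commutator G) :=
    { (inferInstance : Group (commutator G)) with mul_comm := fun a b => Subtype.ext (hab a a.2 b b.2) }
  haveI hMfg : Group.FG (commutator G) := by
    exact Subgroup.fg_of_index_ne_zero (commutator G)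
  haveI hMinf : Infinite (commutator G) := by
    by_contra hcon
    haveI : Finite (commutator G) := not_infinite_iff_finite.mp hcon
    haveI : Finite (G ⧸ commutator G) := hfin
    haveI : Finite G := Finite.of_equiv _ (Subgroup.groupEquivQuotientProdSubgroup (s := commutator G)).symm
    exact not_finite G
  obtain ⟨f, a0, ha0⟩ := exists_hom24 (commutator G)
  -- the homomorphism extended by zero
  let F : G → ℝ := fun m => if h : m ∈ commutator G then ((f ⟨m, h⟩).toAdd : ℝ) else 0
  have hF : ∀ m ∈ commutator G, ∀ m' ∈ commutator G, F (m * m') = F m + F m' := by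
    intro m hm m' hm'
    have h1 : m * m' ∈ commutator G := mul_mem hm hm'
    simp only [F, hm, hm', h1, dif_pos]
    have h2 : (⟨m * m', h1⟩ : commutator G) = ⟨m, hm⟩ * ⟨m', hm'⟩ := rfl
    rw [h2, map_mul, toAdd_mul]
    push_cast
    ring
  let q : G →* Abelianization G := Abelianization.of
  have hq : Function.Surjective q := QuotientGroup.mk_surjective
  have hker : ∀ g, q g = 1 ↔ g ∈ commutator G := by
    intro g
    rw [← Abelianization.ker_of, MonoidHom.mem_ker]
  let l : Abelianization G → G := Function.surjInv hq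
  have hl : ∀ γ, q (l γ) = γ := Function.surjInv_eq hq
  let b : G → Abelianization G → ℝ := fun g γ => F ((l γ)⁻¹ * g * l ((q g)⁻¹ * γ))
  have hmem : ∀ g γ, (l γ)⁻¹ * g * l ((q g)⁻¹ * γ) ∈ commutator G := by
    intro g γ
    rw [← hker]
    simp only [map_mul, map_inv, hl]
    group
  have hb : ∀ g h γ, b (g * h) γ = b g γ + b h ((q g)⁻¹ * γ) := by
    intro g h γ
    have h1 : (l γ)⁻¹ * (g * h) * l ((q (g * h))⁻¹ * γ) =
        ((l γ)⁻¹ * g * l ((q g)⁻¹ * γ)) * ((l ((q g)⁻¹ * γ))⁻¹ * h * l ((q h)⁻¹ * ((q g)⁻¹ * γ))) := by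
      have h2 : (q (g * h))⁻¹ * γ = (q h)⁻¹ * ((q g)⁻¹ * γ) := by
        rw [map_mul, mul_inv_rev, mul_assoc]
      rw [h2]
      group
    show F _ = F _ + F _
    rw [h1]
    exact hF _ (hmem g γ) _ (hmem h _)
  -- the sum over the quotient is a homomorphism, hence zero
  have hshift : ∀ (u : Abelianization G → ℝ) (x : Abelianization G), ∑ γ, u (x * γ) = ∑ γ, u γ := by
    intro u x
    exact Fintype.sum_equiv (Equiv.mulLeft x) _ _ (fun γ => rfl)
  have hsum : ∀ g h, ∑ γ, b (g * h) γ = ∑ γ, b g γ + ∑ γ, b h γ := by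
    intro g h
    rw [Finset.sum_congr rfl (fun γ _ => hb g h γ), Finset.sum_add_distrib, hshift (fun γ => b h γ)]
  let φ : G →* Multiplicative ℝ := MonoidHom.mk' (fun g => Multiplicative.ofAdd (∑ γ, b g γ)) (by
    intro g h
    show Multiplicative.ofAdd _ = _
    rw [hsum, ofAdd_add])
  have hzero : ∀ g, ∑ γ, b g γ = 0 := by
    intro g
    have h1 : φ g = Abelianization.lift φ (q g) := (Abelianization.lift_apply_of φ g).symm
    have h2 : (φ g) ^ Fintype.card (Abelianization G) = 1 := by
      rw [h1, ← map_pow, pow_card_eq_one, map_one]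
    have h3 : Multiplicative.toAdd ((φ g) ^ Fintype.card (Abelianization G)) = 0 := by
      rw [h2]; rfl
    rw [toAdd_pow] at h3
    have h4 : Multiplicative.toAdd (φ g) = ∑ γ, b g γ := rfl
    rw [h4] at h3
    rcases smul_eq_zero.mp h3 with h | h
    · exact absurd h Fintype.card_ne_zero
    · exact h
  -- harmonic correction
  let w : Abelianization G → ℝ := fun γ => ∑ ω, p ω * b (s ω) γ
  have hw : ∑ γ, w γ = 0 := by
    simp only [w]
    rw [Finset.sum_comm]
    refine Finset.sum_eq_zero fun ω _ => ?_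
    rw [← Finset.mul_sum, hzero (s ω), mul_zero]
  obtain ⟨v, hv⟩ := exists_harmonic s hs p hp.pos hp.sum q hq w hw
  refine sqrt_lower_of_cocycle s σ hσ hs p hp q (fun g γ => b g γ + v ((q g)⁻¹ * γ) - v γ) ?_ ?_ ?_
  · intro g h γ
    have h2 : (q (g * h))⁻¹ * γ = (q h)⁻¹ * ((q g)⁻¹ * γ) := by
      rw [map_mul, mul_inv_rev, mul_assoc]
    simp only [h2, hb g h γ]
    ring
  · intro γ
    have h1 := hv γ
    have h2 : ∑ ω, p ω * (b (s ω) γ + v ((q (s ω))⁻¹ * γ) - v γ) =
        w γ + ∑ ω, p ω * v ((q (s ω))⁻¹ * γ) - v γ := by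
      have h3 : ∀ ω, p ω * (b (s ω) γ + v ((q (s ω))⁻¹ * γ) - v γ) =
          p ω * b (s ω) γ + p ω * v ((q (s ω))⁻¹ * γ) - p ω * v γ := fun ω => by ring
      simp only [h3]
      rw [Finset.sum_sub_distrib, Finset.sum_add_distrib, ← Finset.sum_mul, hp.sum, one_mul]
    rw [h2, h1]
  · by_contra hcon
    push Not at hcon
    let b' : G → Abelianization G → ℝ := fun g γ => b g γ + v ((q g)⁻¹ * γ) - v γ
    have hb' : ∀ g h γ, b' (g * h) γ = b' g γ + b' h ((q g)⁻¹ * γ) := by
      intro g h γ
      have h2 : (q (g * h))⁻¹ * γ = (q h)⁻¹ * ((q g)⁻¹ * γ) := by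
        rw [map_mul, mul_inv_rev, mul_assoc]
      simp only [b', h2, hb g h γ]
      ring
    have h1 : ∀ γ, b' 1 γ = 0 := by
      intro γ
      have := hb' 1 1 γ
      rw [mul_one, map_one, inv_one, one_mul] at this
      linarith
    have hall : ∀ g : G, ∀ γ, b' g γ = 0 := by
      intro g
      have hg : g ∈ Subgroup.closure (Set.range s) := by rw [hs]; trivial
      induction hg using Subgroup.closure_induction with
      | mem x hx =>
        obtain ⟨ω, rfl⟩ := hx
        exact hcon ω
      | one => exact h1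
      | mul x y _ _ hx hy =>
        intro γ
        rw [hb', hx, hy, add_zero]
      | inv x _ hx =>
        intro γ
        have h3 := hb' x x⁻¹ (q x * γ)
        rw [mul_inv_cancel, h1, hx, zero_add, inv_mul_cancel_left] at h3
        exact h3.symm
    apply ha0
    have h5 : F a0 = 0 := by
      have hm : l 1 * (a0 : G) * (l 1)⁻¹ ∈ commutator G := by
        rw [← hker]
        simp only [map_mul, map_inv, hl, (hker (a0 : G)).mpr a0.2]
        simp
      have hqm : q (l 1 * (a0 : G) * (l 1)⁻¹) = 1 := (hker _).mpr hm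
      have h6 := hall (l 1 * (a0 : G) * (l 1)⁻¹) 1
      simp only [b', b, hqm] at h6
      have h7 : (l 1)⁻¹ * (l 1 * (a0 : G) * (l 1)⁻¹) * l ((1 : Abelianization G)⁻¹ * 1) = a0 := by
        rw [inv_one, one_mul]
        group
      rw [h7, inv_one, one_mul] at h6
      linarith
    have h8 : F a0 = ((f a0).toAdd : ℝ) := by
      simp only [F, a0.2, dif_pos]
    rw [h8] at h5
    have h9 : (f a0).toAdd = 0 := by exact_mod_cast h5
    exact toAdd_eq_zero.mp h9


end Pool.Agent.Helper13.MW
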