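import Pool.Agent.Helper13.MW.Main
import Pool.Agent.Helper13.MW.L3
import Pool.Agent.Helper13.MW.Q1b
import Pool.Agent.Helper13.MT.Q1a
import Pool.Agent.Helper13.MT.Q1c
import Pool.Agent.Helper13.MT.Br

/-!
# MW: finitely presented metabelian groups (assembly), weighted version
-/

set_option autoImplicit false

namespace Pool.Agent.Helper13.MW

open Pool.Agent.Helper13.MS Pool.Agent.Helper13.MT

theorem main_metabelian (G : Type) [Group G] [Group.IsFinitelyPresented G]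
    (hab : ∀ a ∈ commutator G, ∀ b ∈ commutator G, a * b = b * a)
    (hupper : Pool.Agent.Helper74.MU.RelA (commutator G) → Pool.Agent.Helper74.MU.RelB (commutator G) →
      ∀ (Ω : Type) [Fintype Ω] [Nonempty Ω] (s : Ω → G) (σ : Ω ≃ Ω), (∀ ω, s (σ ω) = (s ω)⁻¹) →
        Subgroup.closure (Set.range s) = ⊤ → ∀ p : Ω → ℝ, Wt p σ →
        ∀ ε : ℝ, 0 < ε → ∃ C : ℝ, 0 < C ∧ ∀ n : ℕ, 1 ≤ n → elw s p n ≤ C * (n : ℝ) ^ (1 / 2 + ε))
    (hlower : ∀ (Ω : Type) [Fintype Ω] [Nonempty Ω] (s : Ω → G) (σ : Ω ≃ Ω), (∀ ω, s (σ ω) = (s ω)⁻¹) →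
        Subgroup.closure (Set.range s) = ⊤ → ∀ p : Ω → ℝ, Wt p σ → ∀ f : G →* Multiplicative ℤ, (∃ g, f g ≠ 1) →
        ∃ c : ℝ, 0 < c ∧ ∀ n : ℕ, 1 ≤ n → c * Real.sqrt n ≤ elw s p n) :
    ∃ β : ℝ, (Finite G → β = 0) ∧ (Infinite G → β = 1 / 2 ∨ β = 1) ∧
      ∀ (Ω : Type) [Fintype Ω] [Nonempty Ω] (s : Ω → G) (σ : Ω ≃ Ω), (∀ ω, s (σ ω) = (s ω)⁻¹) →
        Subgroup.closure (Set.range s) = ⊤ → ∀ p : Ω → ℝ, Wt p σ →
        Filter.Tendsto (fun n : ℕ => Real.log (elw s p n) / Real.log n) Filter.atTop (nhds β) := by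
  have hfg : Group.FG G := by
    obtain ⟨n, φ, hφ, -⟩ := (inferInstance : Group.IsFinitelyPresented G).out
    exact Group.fg_of_surjective hφ
  by_cases hG : Finite G
  · exact ⟨0, fun _ => rfl, fun h => absurd hG (not_finite_iff_infinite.mpr h),
      fun Ω _ _ s σ hσ hs p hp => tendsto_finite s σ hσ hs p hp⟩
  have hinf : Infinite G := not_finite_iff_infinite.mp hG
  by_cases hfd : FiniteDimensional ℚ (TensorProduct ℤ ℚ (Additive (Abelianization (commutator G))))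
  swap
  · exact ⟨1, fun h => absurd h hG, fun _ => Or.inr rfl, fun Ω _ _ s σ hσ hs p hp => main G hfd Ω s σ hσ hs p hp⟩
  by_cases hB : Pool.Agent.Helper74.MU.RelB (commutator G)
  swap
  · obtain ⟨K, _, Tw, hφ, g₁, g₂, h12⟩ := br2 hab hB
    exact ⟨1, fun h => absurd h hG, fun _ => Or.inr rfl, fun Ω _ _ s σ hσ hs p hp =>
      main_of_freePlane Tw hφ g₁ g₂ (Tw.χ g₁) (Tw.χ g₂) (Subgroup.subset_closure (by simp)) (Subgroup.subset_closure (by simp))
        h12 Ω s σ hσ hs p hp⟩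
  have hA := br1 hab hfd
  refine ⟨1 / 2, fun h => absurd h hG, fun _ => Or.inl rfl, fun Ω _ _ s σ hσ hs p hp => ?_⟩
  have hlow : ∃ c : ℝ, 0 < c ∧ ∀ n : ℕ, 1 ≤ n → c * Real.sqrt n ≤ elw s p n := by
    by_cases hab' : Finite (Abelianization G)
    · exact sqrt_lower_of_finite_abelianization s σ hσ hs p hp hab hab' hinf
    · obtain ⟨f, hf⟩ := exists_hom (not_finite_iff_infinite.mp hab')
      exact hlower Ω s σ hσ hs p hp f hf
  obtain ⟨c, hc, hlow⟩ := hlow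
  exact tendsto_half _ c hc hlow (hupper hA hB Ω s σ hσ hs p hp)

end Pool.Agent.Helper13.MW
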