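import Pool.Agent.Helper13.MW.QE
import Pool.Agent.Helper13.MT.L1

/-!
# MW-L1: weighted version of MT/L1.lean
-/

set_option autoImplicit false

namespace Pool.Agent.Helper13.MW

open Pool.Agent.Helper13.MS

open Classical in
/-- The maximum principle (weighted). -/
private theorem const64 {Ω Γ : Type} [Fintype Ω] [Nonempty Ω] [Group Γ] [Fintype Γ] (t : Ω → Γ)
    (ht : Subgroup.closure (Set.range t) = ⊤) (p : Ω → ℝ) (hp : ∀ ω, 0 < p ω) (h1 : ∑ ω, p ω = 1) (v : Γ → ℝ)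
    (hv : ∀ γ, v γ = ∑ ω, p ω * v ((t ω)⁻¹ * γ)) : ∃ c, ∀ γ, v γ = c := by
  obtain ⟨γ₀, -, hmax⟩ := Finset.exists_max_image (Finset.univ : Finset Γ) v ⟨1, Finset.mem_univ _⟩
  -- the set of the maximal points
  let M : Finset Γ := Finset.univ.filter fun γ => v γ = v γ₀
  have hM : ∀ γ, γ ∈ M ↔ v γ = v γ₀ := fun γ => by simp [M]
  have hstep : ∀ γ ∈ M, ∀ ω, (t ω)⁻¹ * γ ∈ M := by
    intro γ hγ ω
    rw [hM] at hγ ⊢
    have h3 : ∑ ω, p ω * (v γ₀ - v ((t ω)⁻¹ * γ)) = 0 := by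
      have h2 := hv γ
      rw [hγ] at h2
      simp only [mul_sub]
      rw [Finset.sum_sub_distrib, ← Finset.sum_mul, h1, one_mul]
      linarith
    have h2 : ∀ ω ∈ (Finset.univ : Finset Ω), 0 ≤ p ω * (v γ₀ - v ((t ω)⁻¹ * γ)) := fun ω _ =>
      mul_nonneg (hp ω).le (by linarith [hmax ((t ω)⁻¹ * γ) (Finset.mem_univ _)])
    have h4 := (Finset.sum_eq_zero_iff_of_nonneg h2).1 h3 ω (Finset.mem_univ _)
    have h5 := (mul_eq_zero.1 h4).resolve_left (hp ω).ne'
    linarith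
  have hback : ∀ γ ∈ M, ∀ ω, t ω * γ ∈ M := by
    intro γ hγ ω
    have h1 : M.image (fun γ => (t ω)⁻¹ * γ) = M := by
      apply Finset.eq_of_subset_of_card_le
      · intro x hx
        obtain ⟨y, hy, rfl⟩ := Finset.mem_image.1 hx
        exact hstep y hy ω
      · rw [Finset.card_image_of_injective _ (mul_right_injective _)]
    rw [← h1] at hγ
    obtain ⟨y, hy, hyγ⟩ := Finset.mem_image.1 hγ
    have h2 : t ω * γ = y := by rw [← hyγ, mul_inv_cancel_left]
    rw [h2]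
    exact hy
  let H : Subgroup Γ :=
    { carrier := {g | ∀ γ ∈ M, g * γ ∈ M ∧ g⁻¹ * γ ∈ M}
      one_mem' := fun γ hγ => by simpa using hγ
      mul_mem' := by
        intro a b ha hb γ hγ
        refine ⟨?_, ?_⟩
        · rw [mul_assoc]
          exact (ha _ (hb γ hγ).1).1
        · rw [mul_inv_rev, mul_assoc]
          exact (hb _ (ha γ hγ).2).2
      inv_mem' := by
        intro a ha γ hγ
        rw [inv_inv]
        exact ⟨(ha γ hγ).2, (ha γ hγ).1⟩ }
  have hH : H = ⊤ := by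
    rw [eq_top_iff, ← ht, Subgroup.closure_le]
    rintro _ ⟨ω, rfl⟩ γ hγ
    exact ⟨hback γ hγ ω, hstep γ hγ ω⟩
  refine ⟨v γ₀, fun γ => ?_⟩
  have h1 : γ * γ₀⁻¹ ∈ H := by
    rw [hH]
    trivial
  have h2 := (h1 γ₀ ((hM γ₀).2 rfl)).1
  rw [inv_mul_cancel_right] at h2
  exact (hM γ).1 h2

theorem exists_harmonic {G Ω Γ : Type} [Group G] [Fintype Ω] [Nonempty Ω] [Group Γ] [Fintype Γ] (s : Ω → G)
    (hs : Subgroup.closure (Set.range s) = ⊤) (p : Ω → ℝ) (hp : ∀ ω, 0 < p ω) (h1 : ∑ ω, p ω = 1)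
    (q : G →* Γ) (hq : Function.Surjective q) (w : Γ → ℝ) (hw : ∑ γ, w γ = 0) :
    ∃ v : Γ → ℝ, ∀ γ, w γ + ∑ ω, p ω * v ((q (s ω))⁻¹ * γ) - v γ = 0 := by
  have ht : Subgroup.closure (Set.range fun ω => q (s ω)) = ⊤ := by
    have h1 : (Set.range fun ω => q (s ω)) = q '' Set.range s := by
      rw [← Set.range_comp]
      rfl
    rw [h1, ← MonoidHom.map_closure, hs, ← MonoidHom.range_eq_map, MonoidHom.range_eq_top.2 hq]
  let T : (Γ → ℝ) →ₗ[ℝ] (Γ → ℝ) :=
    { toFun := fun v γ => v γ - ∑ ω, p ω * v ((q (s ω))⁻¹ * γ)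
      map_add' := by
        intro v v'
        ext γ
        simp only [Pi.add_apply, mul_add, Finset.sum_add_distrib]
        ring
      map_smul' := by
        intro c v
        ext γ
        simp only [Pi.smul_apply, smul_eq_mul, RingHom.id_apply, mul_sub, Finset.mul_sum]
        congr 1
        exact Finset.sum_congr rfl fun ω _ => by ring }
  let E : Submodule ℝ (Γ → ℝ) :=
    { carrier := {v | ∑ γ, v γ = 0}
      zero_mem' := by simp
      add_mem' := by
        intro a b ha hb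
        change ∑ γ, (a γ + b γ) = 0
        rw [Finset.sum_add_distrib, show ∑ γ, a γ = 0 from ha, show ∑ γ, b γ = 0 from hb, add_zero]
      smul_mem' := by
        intro c a ha
        change ∑ γ, c * a γ = 0
        rw [← Finset.mul_sum, show ∑ γ, a γ = 0 from ha, mul_zero] }
  have hTE : ∀ v ∈ E, T v ∈ E := by
    intro v _
    change ∑ γ, (v γ - ∑ ω, p ω * v ((q (s ω))⁻¹ * γ)) = 0
    rw [Finset.sum_sub_distrib, Finset.sum_comm]
    have h2 : ∀ ω, ∑ γ, p ω * v ((q (s ω))⁻¹ * γ) = p ω * ∑ γ, v γ := fun ω => by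
      rw [← Finset.mul_sum]
      congr 1
      exact Fintype.sum_equiv (Equiv.mulLeft (q (s ω))⁻¹) _ _ fun γ => rfl
    simp only [h2]
    rw [← Finset.sum_mul, h1, one_mul, sub_self]
  have hinj : Function.Injective (T.restrict hTE) := by
    rw [← LinearMap.ker_eq_bot, LinearMap.ker_eq_bot']
    rintro ⟨v, hv⟩ h0
    have h2 : T v = 0 := congrArg Subtype.val h0
    obtain ⟨c, hc⟩ := const64 (fun ω => q (s ω)) ht p hp h1 v (fun γ => by
      have h3 := congrFun h2 γ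
      exact sub_eq_zero.1 h3)
    have h2 : ∑ γ, v γ = 0 := hv
    simp only [hc, Finset.sum_const, Finset.card_univ, nsmul_eq_mul] at h2
    have h3 : (Fintype.card Γ : ℝ) ≠ 0 := Nat.cast_ne_zero.2 Fintype.card_ne_zero
    have h4 : c = 0 := (mul_eq_zero.1 h2).resolve_left h3
    apply Subtype.ext
    funext γ
    change v γ = 0
    rw [hc, h4]
  obtain ⟨⟨v, hv⟩, hvw⟩ := (LinearMap.injective_iff_surjective.1 hinj) ⟨w, hw⟩
  refine ⟨v, fun γ => ?_⟩
  have h1 : T v = w := congrArg Subtype.val hvw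
  have h2 := congrFun h1 γ
  change v γ - ∑ ω, p ω * v ((q (s ω))⁻¹ * γ) = w γ at h2
  linarith

end Pool.Agent.Helper13.MW
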