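import Pool.Agent.Helper13.MW.QB
import Pool.Agent.Helper13.MS.MUA

/-!
# MW-MUB: weighted version of MS/MUB.lean
-/

set_option autoImplicit false

namespace Pool.Agent.Helper13.MW

open Pool.Agent.Helper13.MS

variable {V Ω : Type} [CommGroup V] [Fintype Ω]

private theorem Qw_mono77 (s : Ω → V) (p : Ω → ℝ) (hp : ∀ ω, 0 ≤ p ω) {f f' : V → ℝ}
    (h : ∀ v, f v ≤ f' v) (v : V) : Qw s p f v ≤ Qw s p f' v := by
  unfold Qw
  exact Finset.sum_le_sum fun ω _ => mul_le_mul_of_nonneg_left (h _) (hp ω)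

private theorem Qw_iterate_mono77 (s : Ω → V) (p : Ω → ℝ) (hp : ∀ ω, 0 ≤ p ω) (n : ℕ) :
    ∀ {f f' : V → ℝ}, (∀ v, f v ≤ f' v) → ∀ v : V, (Qw s p)^[n] f v ≤ (Qw s p)^[n] f' v := by
  induction n with
  | zero => intro f f' h v; exact h v
  | succ n ih =>
    intro f f' h v
    rw [Function.iterate_succ_apply, Function.iterate_succ_apply]
    exact ih (fun w => Qw_mono77 s p hp h w) v

private theorem Aw_mono77 (s : Ω → V) (p : Ω → ℝ) (hp : ∀ ω, 0 ≤ p ω) (α β : Ω) (m : ℕ)
    {F F' : Multiset V → V → ℝ} (h : ∀ S v, F S v ≤ F' S v) (S : Multiset V) (v : V) :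
    Aw s p α β m F S v ≤ Aw s p α β m F' S v := by
  unfold Aw Bw
  refine Finset.sum_le_sum fun a _ => Finset.sum_le_sum fun b _ => ?_
  exact mul_le_mul_of_nonneg_left (Qw_iterate_mono77 s p hp _ (fun w => h _ w) _)
    (mul_nonneg (hp a) (hp b))

private theorem Qw_lin77 (s : Ω → V) (p : Ω → ℝ) (c : ℝ) (f g : V → ℝ) :
    Qw s p (fun v => f v + c * g v) = fun v => Qw s p f v + c * Qw s p g v := by
  funext v
  unfold Qw
  rw [Finset.mul_sum, ← Finset.sum_add_distrib]
  refine Finset.sum_congr rfl fun ω _ => ?_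
  ring

private theorem Qw_iterate_lin77 (s : Ω → V) (p : Ω → ℝ) (n : ℕ) : ∀ (c : ℝ) (f g : V → ℝ),
    (Qw s p)^[n] (fun v => f v + c * g v) = fun v => (Qw s p)^[n] f v + c * (Qw s p)^[n] g v := by
  induction n with
  | zero => intro c f g; rfl
  | succ n ih =>
    intro c f g
    rw [Function.iterate_succ_apply, Function.iterate_succ_apply, Function.iterate_succ_apply,
      Qw_lin77, ih]

private theorem Qw_const77 (s : Ω → V) (p : Ω → ℝ) (h1 : ∑ ω, p ω = 1) (b : ℝ) :
    Qw s p (fun _ => b) = fun _ => b := by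
  funext v
  unfold Qw
  rw [← Finset.sum_mul, h1, one_mul]

private theorem Qw_iterate_const77 (s : Ω → V) (p : Ω → ℝ) (h1 : ∑ ω, p ω = 1) (n : ℕ) (b : ℝ) :
    (Qw s p)^[n] (fun _ => b) = fun _ => b := by
  induction n with
  | zero => rfl
  | succ n ih => rw [Function.iterate_succ_apply, Qw_const77 s p h1, ih]

private theorem Aw_lin77 (s : Ω → V) (p : Ω → ℝ) (α β : Ω) (m : ℕ) (c : ℝ)
    (F G : Multiset V → V → ℝ) :
    Aw s p α β m (fun S v => F S v + c * G S v) =
      fun S v => Aw s p α β m F S v + c * Aw s p α β m G S v := by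
  funext S v
  unfold Aw Bw
  simp only [Qw_iterate_lin77]
  rw [Finset.mul_sum, ← Finset.sum_add_distrib]
  refine Finset.sum_congr rfl fun a _ => ?_
  rw [Finset.mul_sum, ← Finset.sum_add_distrib]
  refine Finset.sum_congr rfl fun b _ => ?_
  ring

private theorem Aw_iterate_lin77 (s : Ω → V) (p : Ω → ℝ) (α β : Ω) (m j : ℕ) :
    ∀ (c : ℝ) (F G : Multiset V → V → ℝ),
    (Aw s p α β m)^[j] (fun S v => F S v + c * G S v) =
      fun S v => (Aw s p α β m)^[j] F S v + c * (Aw s p α β m)^[j] G S v := by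
  induction j with
  | zero => intro c F G; rfl
  | succ j ih =>
    intro c F G
    rw [Function.iterate_succ_apply, Function.iterate_succ_apply, Function.iterate_succ_apply,
      Aw_lin77, ih]

private theorem sum_two77 (p : Ω → ℝ) (h1 : ∑ ω, p ω = 1) : ∑ a, ∑ b, p a * p b = 1 := by
  have : ∀ a, ∑ b, p a * p b = p a := fun a => by rw [← Finset.mul_sum, h1, mul_one]
  simp only [this, h1]

private theorem Aw_const77 (s : Ω → V) (p : Ω → ℝ) (h1 : ∑ ω, p ω = 1) (α β : Ω) (m : ℕ) (b : ℝ) :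
    Aw s p α β m (fun _ _ => b) = fun _ _ => b := by
  funext S v
  unfold Aw Bw
  simp only [Qw_iterate_const77 s p h1, ← Finset.sum_mul]
  rw [sum_two77 p h1, one_mul]

private theorem Aw_iterate_const77 (s : Ω → V) (p : Ω → ℝ) (h1 : ∑ ω, p ω = 1) (α β : Ω)
    (m j : ℕ) (b : ℝ) : (Aw s p α β m)^[j] (fun _ _ => b) = fun _ _ => b := by
  induction j with
  | zero => rfl
  | succ j ih => rw [Function.iterate_succ_apply, Aw_const77 s p h1, ih]

private theorem Aw_h77 (H : HFun V) (s : Ω → V) (p : Ω → ℝ) (h1 : ∑ ω, p ω = 1) (α β : Ω) (m : ℕ) :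
    Aw s p α β m (fun S _ => H.h S) =
      fun S v => H.h S + (p α * p β) * gain H S {v} := by
  classical
  funext S v
  unfold Aw Bw
  simp only [Qw_iterate_const77 s p h1]
  have key : ∀ a b : Ω, p a * p b * H.h (if a = α ∧ b = β then v ::ₘ S else S) =
      p a * p b * H.h S + if a = α then (if b = β then p α * p β * gain H S {v} else 0) else 0 := by
    intro a b
    by_cases h1 : a = α <;> by_cases h2 : b = β
    · simp only [h1, h2, and_self, if_true]
      unfold gain
      rw [add_comm S, Multiset.singleton_add]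
      ring
    · simp [h1, h2]
    · simp [h1]
    · simp [h1]
  have hsum : (∑ a : Ω, ∑ b : Ω, p a * p b * H.h (if a = α ∧ b = β then v ::ₘ S else S)) =
      H.h S + p α * p β * gain H S {v} := by
    simp only [key, Finset.sum_add_distrib, ← Finset.sum_mul]
    congr 1
    · rw [sum_two77 p h1, one_mul]
    · simp
  convert hsum using 1

theorem Aw_iterate_mono (s : Ω → V) (p : Ω → ℝ) (hp : ∀ ω, 0 ≤ p ω) (α β : Ω) (m : ℕ) {F F' : Multiset V → V → ℝ}
    (h : ∀ S v, F S v ≤ F' S v) (j : ℕ) (S : Multiset V) (v : V) : (Aw s p α β m)^[j] F S v ≤ (Aw s p α β m)^[j] F' S v := by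
  induction j generalizing F F' with
  | zero => exact h S v
  | succ j ih =>
    rw [Function.iterate_succ_apply, Function.iterate_succ_apply]
    exact ih (fun T w => Aw_mono77 s p hp α β m h T w)

theorem Aw_iterate_affine (s : Ω → V) (p : Ω → ℝ) (h1 : ∑ ω, p ω = 1) (α β : Ω) (m : ℕ) (F : Multiset V → V → ℝ) (a b : ℝ)
    (j : ℕ) (S : Multiset V) (v : V) :
    (Aw s p α β m)^[j] (fun S v => a * F S v + b) S v = a * (Aw s p α β m)^[j] F S v + b := by
  have h2 : (fun (S : Multiset V) (v : V) => a * F S v + b) = fun S v => (fun _ _ => b) S v + a * F S v := by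
    funext S v
    exact add_comm _ _
  rw [h2, Aw_iterate_lin77, Aw_iterate_const77 s p h1]
  exact add_comm _ _

theorem Aw_telescope (H : HFun V) (s : Ω → V) (p : Ω → ℝ) (h1 : ∑ ω, p ω = 1) (α β : Ω) (m J : ℕ) :
    (Aw s p α β m)^[J] (fun S _ => H.h S) 0 1 =
      p α * p β * ∑ j ∈ Finset.range J, (Aw s p α β m)^[j] (fun S v => gain H S {v}) 0 1 := by
  induction J with
  | zero => simp [H.zero]
  | succ J ih =>
    rw [Function.iterate_succ_apply, Aw_h77 H s p h1,
      Aw_iterate_lin77 s p α β m J (p α * p β) (fun S _ => H.h S) (fun S v => gain H S {v}),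
      Finset.sum_range_succ]
    simp only []
    rw [ih]
    ring

end Pool.Agent.Helper13.MW
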