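import Pool.Agent.Helper13.MW.MUB

/-!
# MW-MUC: weighted version of MS/MUC.lean
-/

set_option autoImplicit false

namespace Pool.Agent.Helper13.MW

open Pool.Agent.Helper13.MS

variable {V Ω : Type} [CommGroup V] [Fintype Ω]

noncomputable def qw (H : HFun V) (s : Ω → V) (p : Ω → ℝ) (m t : ℕ) (U : Multiset V) : Multiset V → V → ℝ :=
  fun S => (Qw s p)^[2 * m * t] fun v => gain H S (dil v U)

private theorem sum_sum88 (p : Ω → ℝ) (h1 : ∑ ω, p ω = 1) : ∑ a, ∑ b, p a * p b = 1 := by
  have : ∀ a, ∑ b, p a * p b = p a := by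
    intro a
    rw [← Finset.mul_sum, h1, mul_one]
  rw [Finset.sum_congr rfl fun a _ => this a, h1]

theorem qw_step (H : HFun V) (s : Ω → V) (p : Ω → ℝ) (hp : ∀ ω, 0 ≤ p ω) (h1 : ∑ ω, p ω = 1) (α β : Ω) (m t : ℕ) (hm : 1 ≤ m)
    (U : Multiset V) (S : Multiset V) (v : V) :
    qw H s p m (t + 1) U S v - Real.log 2 ≤ Aw s p α β m (qw H s p m t U) S v := by
  classical
  set g : Multiset V → V → ℝ := fun S v => gain H S (dil v U) with hg
  have hn : 2 * m * (t + 1) = (2 * m - 2 + 2 * m * t) + 1 + 1 := by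
    have : 2 * m * (t + 1) = 2 * m * t + 2 * m := by ring
    omega
  have e1 : qw H s p m (t + 1) U S v =
      ∑ a, ∑ b, p a * p b * (Qw s p)^[2 * m - 2 + 2 * m * t] (g S) (v * s a * s b) := by
    unfold qw
    rw [hn, Function.iterate_succ_apply', Function.iterate_succ_apply']
    simp only [Qw]
    refine Finset.sum_congr rfl fun a _ => ?_
    rw [Finset.mul_sum]
    exact Finset.sum_congr rfl fun b _ => (mul_assoc _ _ _).symm
  have e2 : Aw s p α β m (qw H s p m t U) S v =
      ∑ a, ∑ b, p a * p b * (Qw s p)^[2 * m - 2 + 2 * m * t]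
        (g (if a = α ∧ b = β then v ::ₘ S else S)) (v * s a * s b) := by
    have h0 : ∀ (S' : Multiset V) (w : V), (Qw s p)^[2 * m - 2] (qw H s p m t U S') w =
        (Qw s p)^[2 * m - 2 + 2 * m * t] (g S') w := by
      intro S' w
      rw [Function.iterate_add_apply]
      rfl
    unfold Aw Bw
    simp only [h0]
  have h3 : ∀ a b, (Qw s p)^[2 * m - 2 + 2 * m * t] (g S) (v * s a * s b) - Real.log 2 ≤
      (Qw s p)^[2 * m - 2 + 2 * m * t]
        (g (if a = α ∧ b = β then v ::ₘ S else S)) (v * s a * s b) := by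
    intro a b
    have h4 := Qw_iterate_affine s p h1 1 (-Real.log 2) (g S) (2 * m - 2 + 2 * m * t) (v * s a * s b)
    rw [one_mul, ← sub_eq_add_neg] at h4
    rw [← h4]
    refine Qw_iterate_mono s p hp (fun w => ?_) _ _
    have hlog : 0 ≤ Real.log 2 := Real.log_nonneg (by norm_num)
    split_ifs
    · have := gain_cons_ge H v S (dil w U)
      simp only [hg]
      linarith
    · linarith
  rw [e1, e2]
  have h5 : (∑ a : Ω, ∑ b : Ω, p a * p b * (Qw s p)^[2 * m - 2 + 2 * m * t] (g S) (v * s a * s b)) -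
      Real.log 2 =
      ∑ a : Ω, ∑ b : Ω, p a * p b * ((Qw s p)^[2 * m - 2 + 2 * m * t] (g S) (v * s a * s b) - Real.log 2) := by
    have h6 : Real.log 2 = ∑ a : Ω, ∑ b : Ω, p a * p b * Real.log 2 := by
      simp only [← Finset.sum_mul]
      rw [sum_sum88 p h1, one_mul]
    conv_lhs => rw [h6]
    rw [← Finset.sum_sub_distrib]
    refine Finset.sum_congr rfl fun a _ => ?_
    rw [← Finset.sum_sub_distrib]
    exact Finset.sum_congr rfl fun b _ => by ring
  rw [h5]
  refine Finset.sum_le_sum fun a _ => Finset.sum_le_sum fun b _ => ?_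
  exact mul_le_mul_of_nonneg_left (h3 a b) (mul_nonneg (hp a) (hp b))

theorem drop (H : HFun V) (s : Ω → V) (p : Ω → ℝ) (hp : ∀ ω, 0 ≤ p ω) (h1 : ∑ ω, p ω = 1) (α β : Ω) (m t T j : ℕ) (hm : 1 ≤ m)
    (htT : t ≤ T) (hTj : T ≤ j) (U : Multiset V) :
    (Aw s p α β m)^[j - T] (qw H s p m T U) 0 1 - ((T : ℝ) - t) * Real.log 2 ≤
      (Aw s p α β m)^[j - t] (qw H s p m t U) 0 1 := by
  induction T, htT using Nat.le_induction with
  | base => simp
  | succ T hT ih =>
    have e1 := ih (by omega)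
    have e2 : (Aw s p α β m)^[j - (T + 1)] (qw H s p m (T + 1) U) 0 1 - Real.log 2 ≤
        (Aw s p α β m)^[j - T] (qw H s p m T U) 0 1 := by
      have h3 : j - T = (j - (T + 1)) + 1 := by omega
      rw [h3, Function.iterate_succ_apply]
      have h4 := Aw_iterate_affine s p h1 α β m (qw H s p m (T + 1) U) 1 (-Real.log 2) (j - (T + 1)) 0 1
      rw [one_mul, ← sub_eq_add_neg] at h4
      rw [← h4]
      refine Aw_iterate_mono s p hp α β m (fun S v => ?_) _ _ _
      have := qw_step H s p hp h1 α β m T hm U S v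
      linarith
    push_cast
    linarith

theorem qw_zero_one (H : HFun V) (s : Ω → V) (p : Ω → ℝ) (h1 : ∑ ω, p ω = 1) (m t : ℕ) (U : Multiset V) :
    qw H s p m t U 0 1 = H.h U := by
  unfold qw
  simp only [gain_zero_dil]
  exact Qw_iterate_const s p h1 _ _ _

end Pool.Agent.Helper13.MW
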