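import Pool.Agent.Helper13.MW.MUB

/-!
# MW-MUD: weighted versions of MS/MUD.lean and MS/MUD2.lean
-/

set_option autoImplicit false

namespace Pool.Agent.Helper13.MW

open Pool.Agent.Helper13.MS

variable {V Ω : Type} [CommGroup V] [Fintype Ω]

def ShiftBoundW (s : Ω → V) (p : Ω → ℝ) (x y : V) (C : ℝ) : Prop :=
  0 < C ∧ ∀ (F : ℝ) (f : V → ℝ), (∀ v, 0 ≤ f v ∧ f v ≤ F) → ∀ n : ℕ, 1 ≤ n → ∀ (L i j : ℕ), Even L → ∀ v : V,
    |(Qw s p)^[n] f v - (Qw s p)^[n] f (v * (x ^ (L * i) * y ^ (L * j)))| ≤ C * F * ((L : ℝ) * (i + j)) / Real.sqrt n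

theorem tile (H : HFun V) (s : Ω → V) (p : Ω → ℝ) (hp : ∀ ω, 0 ≤ p ω) (h1 : ∑ ω, p ω = 1) (x y : V) (C : ℝ)
    (hC : ShiftBoundW s p x y C) (n L N M : ℕ) (hn : 1 ≤ n) (hL : Even L)
    (hN : 1 ≤ N) (hM : 1 ≤ M) (S : Multiset V) (v : V) :
    (Qw s p)^[n] (fun w => gain H S (dil w (grid x y L (N * M)))) v / ((N : ℝ) * M) ^ 2
        - C * Real.log 2 * ((L : ℝ) * (2 * N * M)) / Real.sqrt n ≤
      (Qw s p)^[n] (fun w => gain H S (dil w (grid x y L N))) v / (N : ℝ) ^ 2 := by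
  classical
  obtain ⟨hC0, hC⟩ := hC
  have hN0 : (0 : ℝ) < N := by exact_mod_cast hN
  have hM0 : (0 : ℝ) < M := by exact_mod_cast hM
  have hlog : 0 < Real.log 2 := Real.log_pos (by norm_num)
  have hn0 : 0 < Real.sqrt n := Real.sqrt_pos.2 (by exact_mod_cast hn)
  set g : V → ℝ := fun w => gain H S (dil w (grid x y L N)) with hg
  have hgb : ∀ w, 0 ≤ g w ∧ g w ≤ (N : ℝ) ^ 2 * Real.log 2 := by
    intro w
    refine ⟨gain_nonneg H S _, (gain_le H S _).trans (le_of_eq ?_)⟩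
    rw [card_dil, card_grid]
    push_cast
    ring
  set t : Fin M × Fin M → V := fun p => x ^ (L * (N * (p.1 : ℕ))) * y ^ (L * (N * (p.2 : ℕ))) with ht
  set E : ℝ := C * ((N : ℝ) ^ 2 * Real.log 2) * ((L : ℝ) * (2 * N * M)) / Real.sqrt n with hE
  have hshift : ∀ q : Fin M × Fin M, (Qw s p)^[n] g (v * t q) ≤ (Qw s p)^[n] g v + E := by
    intro q
    have h1 := hC _ g hgb n hn L (N * (q.1 : ℕ)) (N * (q.2 : ℕ)) hL v
    have h2 := (abs_le.1 h1).1
    have h3 : C * ((N : ℝ) ^ 2 * Real.log 2) *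
        ((L : ℝ) * (((N * (q.1 : ℕ) : ℕ) : ℝ) + ((N * (q.2 : ℕ) : ℕ) : ℝ))) / Real.sqrt n ≤ E := by
      rw [hE]
      have hp1 : ((q.1 : ℕ) : ℝ) ≤ M := by exact_mod_cast q.1.2.le
      have hp2 : ((q.2 : ℕ) : ℝ) ≤ M := by exact_mod_cast q.2.2.le
      have hL0 : (0 : ℝ) ≤ L := by positivity
      push_cast
      gcongr
      nlinarith
    linarith
  have hQ : ∀ q : Fin M × Fin M,
      (Qw s p)^[n] (fun w => gain H S (dil (w * t q) (grid x y L N))) v = (Qw s p)^[n] g (v * t q) := by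
    intro q
    have e : (fun w => gain H S (dil (w * t q) (grid x y L N))) = fun w => g (t q * w) := by
      funext w
      simp only [hg]
      rw [mul_comm w (t q)]
    rw [e, Qw_iterate_left, mul_comm (t q) v]
  have hbig : (Qw s p)^[n] (fun w => gain H S (dil w (grid x y L (N * M)))) v ≤
      (M : ℝ) ^ 2 * ((Qw s p)^[n] g v + E) := by
    calc (Qw s p)^[n] (fun w => gain H S (dil w (grid x y L (N * M)))) v
        ≤ (Qw s p)^[n] (fun w => ∑ q : Fin M × Fin M, gain H S (dil (w * t q) (grid x y L N))) v := by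
          refine Qw_iterate_mono s p hp (fun w => ?_) n v
          rw [dil_grid_mul w x y L N M hN]
          exact gain_sum_le H S Finset.univ _
      _ = ∑ q : Fin M × Fin M, (Qw s p)^[n] (fun w => gain H S (dil (w * t q) (grid x y L N))) v :=
          Qw_iterate_sum s p Finset.univ _ n v
      _ ≤ ∑ _q : Fin M × Fin M, ((Qw s p)^[n] g v + E) := by
          refine Finset.sum_le_sum fun q _ => ?_
          rw [hQ q]
          exact hshift q
      _ = (M : ℝ) ^ 2 * ((Qw s p)^[n] g v + E) := by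
          rw [Finset.sum_const, Finset.card_univ, Fintype.card_prod, Fintype.card_fin, nsmul_eq_mul]
          push_cast
          ring
  have hEN : E / (N : ℝ) ^ 2 = C * Real.log 2 * ((L : ℝ) * (2 * N * M)) / Real.sqrt n := by
    rw [hE]
    field_simp
  have h4 : (Qw s p)^[n] (fun w => gain H S (dil w (grid x y L (N * M)))) v / ((N : ℝ) * M) ^ 2 ≤
      (Qw s p)^[n] g v / (N : ℝ) ^ 2 + E / (N : ℝ) ^ 2 := by
    rw [div_le_iff₀ (by positivity)]
    refine hbig.trans (le_of_eq ?_)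
    field_simp
  rw [← hEN]
  linarith

theorem bottom (H : HFun V) (s : Ω → V) (p : Ω → ℝ) (hp : ∀ ω, 0 ≤ p ω) (h1 : ∑ ω, p ω = 1) (α β : Ω) (x y : V) (C : ℝ)
    (hC : ShiftBoundW s p x y C) (m L M : ℕ) (hm : 2 ≤ m)
    (hL : Even L) (hM : 1 ≤ M) (j : ℕ) (hj : 1 ≤ j) :
    (Aw s p α β m)^[j] (fun S v => gain H S (dil v (grid x y L M))) 0 1 / (M : ℝ) ^ 2
        - C * Real.log 2 * ((L : ℝ) * (2 * M)) / Real.sqrt ((2 * m - 2 : ℕ) : ℝ) ≤
      (Aw s p α β m)^[j] (fun S v => gain H S {v}) 0 1 := by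
  classical
  set n : ℕ := 2 * m - 2 with hn
  have hn1 : 1 ≤ n := by omega
  set E : ℝ := C * Real.log 2 * ((L : ℝ) * (2 * M)) / Real.sqrt (n : ℝ) with hE
  have hM0 : (0 : ℝ) < M := by exact_mod_cast hM
  have h2 : ∑ a, ∑ b, p a * p b = 1 := by
    simp only [← Finset.mul_sum, h1, mul_one]
  -- the tile lemma with `N = 1`
  have htile : ∀ (S : Multiset V) (v : V),
      (1 / (M : ℝ) ^ 2) * (Qw s p)^[n] (fun w => gain H S (dil w (grid x y L M))) v + -E ≤
        (Qw s p)^[n] (fun w => gain H S {w}) v := by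
    intro S v
    have h := tile H s p hp h1 x y C hC n L 1 M hn1 hL le_rfl hM S v
    have e1 : (fun w : V => gain H S (dil w (grid x y L 1))) = fun w => gain H S {w} := by
      funext w
      rw [grid_one]
      simp [dil]
    rw [e1] at h
    simp only [one_mul, Nat.cast_one, mul_one, one_pow, div_one] at h
    rw [hE]
    rw [div_mul_eq_mul_div, one_mul]
    linarith
  -- one macro step
  have hstep : ∀ (S : Multiset V) (v : V),
      (1 / (M : ℝ) ^ 2) * Aw s p α β m (fun S v => gain H S (dil v (grid x y L M))) S v + -E ≤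
        Aw s p α β m (fun S v => gain H S {v}) S v := by
    intro S v
    unfold Aw Bw
    rw [← hn]
    have hexp : (1 / (M : ℝ) ^ 2) *
        (∑ a, ∑ b, p a * p b * (Qw s p)^[n] ((fun S v => gain H S (dil v (grid x y L M)))
          (if a = α ∧ b = β then v ::ₘ S else S)) (v * s a * s b)) + -E =
        ∑ a : Ω, ∑ b : Ω, p a * p b * ((1 / (M : ℝ) ^ 2) *
          (Qw s p)^[n] ((fun S v => gain H S (dil v (grid x y L M)))
            (if a = α ∧ b = β then v ::ₘ S else S)) (v * s a * s b) + -E) := by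
      simp only [mul_add, Finset.sum_add_distrib]
      congr 1
      · rw [Finset.mul_sum]
        refine Finset.sum_congr rfl fun a _ => ?_
        rw [Finset.mul_sum]
        exact Finset.sum_congr rfl fun b _ => by ring
      · simp only [← Finset.sum_mul]
        rw [h2, one_mul]
    rw [hexp]
    refine Finset.sum_le_sum fun a _ => Finset.sum_le_sum fun b _ => ?_
    exact mul_le_mul_of_nonneg_left (htile _ _) (mul_nonneg (hp a) (hp b))
  -- iterate
  obtain ⟨i, rfl⟩ : ∃ i, j = i + 1 := ⟨j - 1, by omega⟩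
  rw [Function.iterate_succ_apply, Function.iterate_succ_apply]
  have h3 := Aw_iterate_mono s p hp α β m hstep i 0 1
  have h4 := Aw_iterate_affine s p h1 α β m
    (Aw s p α β m (fun S v => gain H S (dil v (grid x y L M)))) (1 / (M : ℝ) ^ 2) (-E) i 0 1
  rw [h4] at h3
  rw [div_eq_inv_mul, ← one_div]
  linarith

end Pool.Agent.Helper13.MW
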