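import Pool.Agent.Helper13.MW.MUC
import Pool.Agent.Helper13.MW.MUD
import Pool.Agent.Helper13.MS.MUE

/-!
# MW-MUE: weighted version of MS/MUE.lean (`TT`, `MM` from there)
-/

set_option autoImplicit false

namespace Pool.Agent.Helper13.MW

open Pool.Agent.Helper13.MS

variable {V Ω : Type} [CommGroup V] [Fintype Ω]

noncomputable def ddw (H : HFun V) (s : Ω → V) (p : Ω → ℝ) (α β : Ω) (x y : V) (c L k j : ℕ) : ℝ :=
  (Aw s p α β (c ^ 8))^[j - TT c k] (qw H s p (c ^ 8) (TT c k) (grid x y L (MM c k))) 0 1 / (MM c k : ℝ) ^ 2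

theorem level (H : HFun V) (s : Ω → V) (p : Ω → ℝ) (hp : ∀ ω, 0 ≤ p ω) (h1 : ∑ ω, p ω = 1) (α β : Ω) (x y : V) (C : ℝ)
    (hC : ShiftBoundW s p x y C) (c L k j : ℕ) (hc : 2 ≤ c) (hL : Even L) (hj : TT c (k + 1) ≤ j) :
    ddw H s p α β x y c L (k + 1) j - (1 / (c : ℝ) ^ 2 + 2 * C * L / c) * Real.log 2 ≤ ddw H s p α β x y c L k j := by
  have hlog : 0 < Real.log 2 := Real.log_pos (by norm_num)
  have hc0 : (0 : ℝ) < c := by exact_mod_cast (by omega : 0 < c)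
  have hC0 : 0 < C := hC.1
  have hM0 : (0 : ℝ) < (MM c k : ℝ) := by
    have : 0 < MM c k := Nat.pow_pos (by omega)
    exact_mod_cast this
  have hMk : (MM c k : ℝ) = (c : ℝ) ^ (2 * k + 3) := by
    rw [MM]
    push_cast
    rfl
  have hMk1 : MM c (k + 1) = MM c k * c ^ 2 := by
    rw [MM, MM, ← pow_add]
    congr 1
  have hT1 : (TT c (k + 1) : ℝ) = (c : ℝ) ^ (4 * k + 4) := by
    show ((c ^ (4 * k + 4) : ℕ) : ℝ) = _
    push_cast
    rfl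
  have hm : 1 ≤ c ^ 8 := Nat.one_le_pow _ _ (by omega)
  -- step 1
  have k1 := drop H s p hp h1 α β (c ^ 8) (TT c k) (TT c (k + 1)) j hm (TT_mono_succ c k hc) hj
    (grid x y L (MM c k))
  have k1' : (Aw s p α β (c ^ 8))^[j - TT c (k + 1)] (qw H s p (c ^ 8) (TT c (k + 1)) (grid x y L (MM c k))) 0 1 /
      (MM c k : ℝ) ^ 2 - 1 / (c : ℝ) ^ 2 * Real.log 2 ≤ ddw H s p α β x y c L k j := by
    rw [ddw]
    have h2 : (TT c (k + 1) : ℝ) * Real.log 2 / (MM c k : ℝ) ^ 2 = 1 / (c : ℝ) ^ 2 * Real.log 2 := by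
      rw [hT1, hMk, ← pow_mul]
      have e1 : (c : ℝ) ^ ((2 * k + 3) * 2) = (c : ℝ) ^ (4 * k + 4) * (c : ℝ) ^ 2 := by
        rw [← pow_add]
        congr 1
        ring
      rw [e1]
      field_simp
    rw [← h2, ← sub_div]
    refine div_le_div_of_nonneg_right ?_ (by positivity)
    have h3 : (0 : ℝ) ≤ (TT c k : ℝ) * Real.log 2 := by positivity
    nlinarith [k1]
  -- step 2
  set n : ℕ := 2 * c ^ 8 * TT c (k + 1) with hn
  have hTpos : 0 < TT c (k + 1) := by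
    show 0 < c ^ (4 * k + 4)
    exact Nat.pow_pos (by omega)
  have hn1 : 1 ≤ n := by
    rw [hn]
    exact Nat.mul_pos (by omega) hTpos
  have hsq : (c : ℝ) ^ (2 * k + 6) ≤ Real.sqrt n := by
    apply Real.le_sqrt_of_sq_le
    rw [hn]
    push_cast
    rw [hT1, ← pow_mul]
    have e1 : (c : ℝ) ^ ((2 * k + 6) * 2) = (c : ℝ) ^ 8 * (c : ℝ) ^ (4 * k + 4) := by
      rw [← pow_add]
      congr 1
      ring
    rw [e1]
    have : (0 : ℝ) < (c : ℝ) ^ 8 * (c : ℝ) ^ (4 * k + 4) := by positivity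
    nlinarith
  have hcost : C * Real.log 2 * ((L : ℝ) * (2 * (MM c k : ℕ) * ((c ^ 2 : ℕ) : ℝ))) / Real.sqrt n ≤
      2 * C * L / c * Real.log 2 := by
    have hs0 : (0 : ℝ) < (c : ℝ) ^ (2 * k + 6) := by positivity
    have hL0 : (0 : ℝ) ≤ (L : ℝ) := by positivity
    rw [hMk]
    push_cast
    calc C * Real.log 2 * ((L : ℝ) * (2 * (c : ℝ) ^ (2 * k + 3) * (c : ℝ) ^ 2)) / Real.sqrt n
        ≤ C * Real.log 2 * ((L : ℝ) * (2 * (c : ℝ) ^ (2 * k + 3) * (c : ℝ) ^ 2)) / (c : ℝ) ^ (2 * k + 6) :=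
          div_le_div_of_nonneg_left (by positivity) hs0 hsq
      _ = 2 * C * L / c * Real.log 2 := by
          have e1 : (c : ℝ) ^ (2 * k + 6) = (c : ℝ) ^ (2 * k + 3) * (c : ℝ) ^ 2 * c := by
            rw [← pow_add, ← pow_succ]
          rw [e1]
          field_simp
  have h4 : ∀ (S : Multiset V) (v : V),
      (1 / (MM c (k + 1) : ℝ) ^ 2) * qw H s p (c ^ 8) (TT c (k + 1)) (grid x y L (MM c (k + 1))) S v +
        (-(2 * C * L / c * Real.log 2)) ≤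
      (1 / (MM c k : ℝ) ^ 2) * qw H s p (c ^ 8) (TT c (k + 1)) (grid x y L (MM c k)) S v + 0 := by
    intro S v
    have h5 := tile H s p hp h1 x y C hC n L (MM c k) (c ^ 2) hn1 hL (Nat.pow_pos (by omega))
      (Nat.one_le_pow _ _ (by omega)) S v
    rw [← hMk1] at h5
    have h6 : ((MM c k : ℕ) : ℝ) * ((c ^ 2 : ℕ) : ℝ) = ((MM c (k + 1) : ℕ) : ℝ) := by
      rw [hMk1]
      push_cast
      rfl
    rw [h6] at h5
    have h7 : ∀ U, qw H s p (c ^ 8) (TT c (k + 1)) U S v = (Qw s p)^[n] (fun w => gain H S (dil w U)) v := by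
      intro U
      rfl
    rw [h7, h7, one_div_mul_eq_div, one_div_mul_eq_div, add_zero]
    have h8 : C * Real.log 2 * ((L : ℝ) * (2 * (MM c k : ℕ) * ((c ^ 2 : ℕ) : ℝ))) / Real.sqrt n ≤
      2 * C * L / c * Real.log 2 := hcost
    linarith
  have h9 := Aw_iterate_mono s p hp α β (c ^ 8) h4 (j - TT c (k + 1)) 0 1
  rw [Aw_iterate_affine s p h1, Aw_iterate_affine s p h1, one_div_mul_eq_div, one_div_mul_eq_div] at h9
  have h10 : ddw H s p α β x y c L (k + 1) j = (Aw s p α β (c ^ 8))^[j - TT c (k + 1)]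
      (qw H s p (c ^ 8) (TT c (k + 1)) (grid x y L (MM c (k + 1)))) 0 1 / (MM c (k + 1) : ℝ) ^ 2 := rfl
  rw [h10]
  linarith

theorem top (H : HFun V) (s : Ω → V) (p : Ω → ℝ) (hp : ∀ ω, 0 ≤ p ω) (h1 : ∑ ω, p ω = 1) (α β : Ω) (x y : V) (c L k j : ℕ)
    (hc : 2 ≤ c) (hfree : (MM c k : ℝ) ^ 2 * Real.log 2 ≤ H.h (grid x y L (MM c k))) (hj : TT c k ≤ j)
    (hj' : j ≤ c ^ (4 * k + 4)) :
    (1 - 1 / (c : ℝ) ^ 2) * Real.log 2 ≤ ddw H s p α β x y c L k j := by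
  have hlog : 0 < Real.log 2 := Real.log_pos (by norm_num)
  have hc0 : (0 : ℝ) < c := by exact_mod_cast (by omega : 0 < c)
  have hM0 : (0 : ℝ) < (MM c k : ℝ) := by
    have : 0 < MM c k := Nat.pow_pos (by omega)
    exact_mod_cast this
  have hMk : (MM c k : ℝ) = (c : ℝ) ^ (2 * k + 3) := by
    rw [MM]
    push_cast
    rfl
  have hm : 1 ≤ c ^ 8 := Nat.one_le_pow _ _ (by omega)
  have k1 := drop H s p hp h1 α β (c ^ 8) (TT c k) j j hm hj le_rfl (grid x y L (MM c k))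
  rw [Nat.sub_self, Function.iterate_zero, id_eq, qw_zero_one H s p h1] at k1
  rw [ddw, le_div_iff₀ (by positivity)]
  refine le_trans ?_ k1
  have h2 : (j : ℝ) ≤ (c : ℝ) ^ (4 * k + 4) := by exact_mod_cast hj'
  have h3 : (0 : ℝ) ≤ (TT c k : ℝ) := by positivity
  have h4 : (1 - 1 / (c : ℝ) ^ 2) * Real.log 2 * (MM c k : ℝ) ^ 2 =
      (MM c k : ℝ) ^ 2 * Real.log 2 - (c : ℝ) ^ (4 * k + 4) * Real.log 2 := by
    have e1 : (MM c k : ℝ) ^ 2 = (c : ℝ) ^ (4 * k + 4) * (c : ℝ) ^ 2 := by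
      rw [hMk, ← pow_mul, ← pow_add]
      congr 1
      ring
    rw [e1]
    field_simp
  rw [h4]
  have h5 : ((j : ℝ) - TT c k) * Real.log 2 ≤ (c : ℝ) ^ (4 * k + 4) * Real.log 2 :=
    mul_le_mul_of_nonneg_right (by linarith) hlog.le
  linarith

theorem base (H : HFun V) (s : Ω → V) (p : Ω → ℝ) (hp : ∀ ω, 0 ≤ p ω) (h1 : ∑ ω, p ω = 1) (α β : Ω) (x y : V) (C : ℝ)
    (hC : ShiftBoundW s p x y C) (c L j : ℕ) (hc : 2 ≤ c) (hL : Even L) (hj : 1 ≤ j) :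
    ddw H s p α β x y c L 0 j - (2 * C * L / c) * Real.log 2 ≤ (Aw s p α β (c ^ 8))^[j] (fun S v => gain H S {v}) 0 1 := by
  have hlog : 0 < Real.log 2 := Real.log_pos (by norm_num)
  have hc0 : (0 : ℝ) < c := by exact_mod_cast (by omega : 0 < c)
  have hC0 : 0 < C := hC.1
  have hc8 : 2 ≤ c ^ 8 := by
    calc 2 ≤ c := hc
      _ ≤ c ^ 8 := Nat.le_self_pow (by norm_num) c
  have k1 := bottom H s p hp h1 α β x y C hC (c ^ 8) L (MM c 0) hc8 hL (Nat.pow_pos (by omega)) j hj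
  have h2 : ddw H s p α β x y c L 0 j =
      (Aw s p α β (c ^ 8))^[j] (fun S v => gain H S (dil v (grid x y L (MM c 0)))) 0 1 / (MM c 0 : ℝ) ^ 2 := rfl
  rw [h2]
  refine le_trans ?_ k1
  have hM : (MM c 0 : ℝ) = (c : ℝ) ^ 3 := by
    rw [MM]
    push_cast
    rfl
  have hsq : (c : ℝ) ^ 4 ≤ Real.sqrt ((2 * c ^ 8 - 2 : ℕ) : ℝ) := by
    apply Real.le_sqrt_of_sq_le
    have h3 : c ^ 8 ≤ 2 * c ^ 8 - 2 := by omega
    have h4 : ((c ^ 8 : ℕ) : ℝ) ≤ ((2 * c ^ 8 - 2 : ℕ) : ℝ) := by exact_mod_cast h3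
    refine le_trans (le_of_eq ?_) h4
    push_cast
    ring
  have hL0 : (0 : ℝ) ≤ (L : ℝ) := by positivity
  have hcost : C * Real.log 2 * ((L : ℝ) * (2 * (MM c 0 : ℝ))) / Real.sqrt ((2 * c ^ 8 - 2 : ℕ) : ℝ) ≤
      2 * C * L / c * Real.log 2 := by
    rw [hM]
    calc C * Real.log 2 * ((L : ℝ) * (2 * (c : ℝ) ^ 3)) / Real.sqrt ((2 * c ^ 8 - 2 : ℕ) : ℝ)
        ≤ C * Real.log 2 * ((L : ℝ) * (2 * (c : ℝ) ^ 3)) / (c : ℝ) ^ 4 :=
          div_le_div_of_nonneg_left (by positivity) (by positivity) hsq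
      _ = 2 * C * L / c * Real.log 2 := by field_simp
  linarith

end Pool.Agent.Helper13.MW
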