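import Pool.Agent.Helper13.MW.SHB
import Pool.Agent.Helper13.MS.SHC

/-!
# MW-SHC: weighted version of MS/SHC.lean
-/

set_option autoImplicit false

namespace Pool.Agent.Helper13.MW

open Pool.Agent.Helper13.MS

private theorem closure_shift63 {V Ω : Type} [CommGroup V] [Fintype Ω] (s : Ω → V) (p : Ω → ℝ) {C : ℝ}
    (hone : ∀ (F : ℝ) (f : V → ℝ), (∀ v, 0 ≤ f v ∧ f v ≤ F) → ∀ n : ℕ, 1 ≤ n → ∀ (ω : Ω) (v : V),
      |(Qw s p)^[n] f v - (Qw s p)^[n] f (v * s ω ^ 2)| ≤ C * F / Real.sqrt n)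
    (z : V) (hz : z ∈ Subgroup.closure (Set.range s)) :
    ∃ k : ℕ, ∀ (F : ℝ) (f : V → ℝ), (∀ v, 0 ≤ f v ∧ f v ≤ F) → ∀ n : ℕ, 1 ≤ n → ∀ v : V,
      |(Qw s p)^[n] f v - (Qw s p)^[n] f (v * z ^ 2)| ≤ (k : ℝ) * (C * F / Real.sqrt n) := by
  induction hz using Subgroup.closure_induction with
  | mem z hz =>
    obtain ⟨ω, rfl⟩ := hz
    refine ⟨1, fun F f hf n hn v => ?_⟩
    rw [Nat.cast_one, one_mul]
    exact hone F f hf n hn ω v
  | one =>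
    refine ⟨0, fun F f hf n hn v => ?_⟩
    rw [one_pow, mul_one, sub_self, abs_zero, Nat.cast_zero, zero_mul]
  | mul a b _ _ iha ihb =>
    obtain ⟨ka, ha⟩ := iha
    obtain ⟨kb, hb⟩ := ihb
    refine ⟨ka + kb, fun F f hf n hn v => ?_⟩
    have h1 := ha F f hf n hn v
    have h2 := hb F f hf n hn (v * a ^ 2)
    have h3 : v * (a * b) ^ 2 = v * a ^ 2 * b ^ 2 := by rw [mul_pow, mul_assoc]
    rw [h3]
    have h4 := abs_sub_le ((Qw s p)^[n] f v) ((Qw s p)^[n] f (v * a ^ 2))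
      ((Qw s p)^[n] f (v * a ^ 2 * b ^ 2))
    push_cast
    linarith
  | inv a _ iha =>
    obtain ⟨ka, ha⟩ := iha
    refine ⟨ka, fun F f hf n hn v => ?_⟩
    have h1 := ha F f hf n hn (v * a⁻¹ ^ 2)
    have h2 : v * a⁻¹ ^ 2 * a ^ 2 = v := by
      rw [mul_assoc, ← mul_pow, inv_mul_cancel, one_pow, mul_one]
    rw [h2, abs_sub_comm] at h1
    exact h1

private theorem pow_shift63 {V Ω : Type} [CommGroup V] [Fintype Ω] (s : Ω → V) (p : Ω → ℝ) {z : V} {B : ℝ}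
    {f : V → ℝ} {n : ℕ}
    (h : ∀ v : V, |(Qw s p)^[n] f v - (Qw s p)^[n] f (v * z ^ 2)| ≤ B) (m : ℕ) :
    ∀ v : V, |(Qw s p)^[n] f v - (Qw s p)^[n] f (v * z ^ (2 * m))| ≤ (m : ℝ) * B := by
  induction m with
  | zero =>
    intro v
    rw [Nat.mul_zero, pow_zero, mul_one, sub_self, abs_zero, Nat.cast_zero, zero_mul]
  | succ m ih =>
    intro v
    have h1 := ih v
    have h2 := h (v * z ^ (2 * m))
    have h3 : v * z ^ (2 * (m + 1)) = v * z ^ (2 * m) * z ^ 2 := by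
      rw [mul_assoc, ← pow_add]
      ring_nf
    rw [h3]
    have h4 := abs_sub_le ((Qw s p)^[n] f v) ((Qw s p)^[n] f (v * z ^ (2 * m)))
      ((Qw s p)^[n] f (v * z ^ (2 * m) * z ^ 2))
    push_cast
    linarith

theorem shift_gen {V Ω : Type} [CommGroup V] [Fintype Ω] (s : Ω → V) (σ : Ω ≃ Ω) (hσ : ∀ ω, s (σ ω) = (s ω)⁻¹)
    (p : Ω → ℝ) (hp : Wt p σ)
    (x y : V) (hx : x ∈ Subgroup.closure (Set.range s)) (hy : y ∈ Subgroup.closure (Set.range s)) :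
    ∃ C : ℝ, 0 < C ∧ ∀ (F : ℝ) (f : V → ℝ), (∀ v, 0 ≤ f v ∧ f v ≤ F) → ∀ n : ℕ, 1 ≤ n → ∀ (L i j : ℕ), Even L → ∀ v : V,
      |(Qw s p)^[n] f v - (Qw s p)^[n] f (v * (x ^ (L * i) * y ^ (L * j)))| ≤ C * F * ((L : ℝ) * (i + j)) / Real.sqrt n := by
  obtain ⟨C, hC, hone⟩ := shift_one s σ hσ p hp
  obtain ⟨kx, hkx⟩ := closure_shift63 s p hone x hx
  obtain ⟨ky, hky⟩ := closure_shift63 s p hone y hy
  refine ⟨C * ((kx : ℝ) + ky + 1), by positivity, fun F f hf n hn L i j hL v => ?_⟩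
  have hF : 0 ≤ F := (hf 1).1.trans (hf 1).2
  obtain ⟨l, rfl⟩ := hL
  have h1 := pow_shift63 s p (hkx F f hf n hn) (l * i) v
  have h2 := pow_shift63 s p (hky F f hf n hn) (l * j) (v * x ^ (2 * (l * i)))
  have h3 : v * (x ^ ((l + l) * i) * y ^ ((l + l) * j)) =
      v * x ^ (2 * (l * i)) * y ^ (2 * (l * j)) := by
    rw [mul_assoc, show (l + l) * i = 2 * (l * i) by ring, show (l + l) * j = 2 * (l * j) by ring]
  rw [h3]
  have h4 := abs_sub_le ((Qw s p)^[n] f v) ((Qw s p)^[n] f (v * x ^ (2 * (l * i))))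
    ((Qw s p)^[n] f (v * x ^ (2 * (l * i)) * y ^ (2 * (l * j))))
  refine h4.trans ((add_le_add h1 h2).trans ?_)
  set B : ℝ := C * F / Real.sqrt n with hB
  have hB0 : 0 ≤ B := by positivity
  have h5 : C * ((kx : ℝ) + ky + 1) * F * (((l + l : ℕ) : ℝ) * ((i : ℝ) + j)) / Real.sqrt n =
      (((kx : ℝ) + ky + 1) * (((l + l : ℕ) : ℝ) * ((i : ℝ) + j))) * B := by
    rw [hB]
    ring
  rw [h5]
  have h6 : ((l * i : ℕ) : ℝ) * ((kx : ℝ) * B) + ((l * j : ℕ) : ℝ) * ((ky : ℝ) * B) =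
      ((l : ℝ) * i * kx + (l : ℝ) * j * ky) * B := by
    push_cast
    ring
  rw [h6]
  refine mul_le_mul_of_nonneg_right ?_ hB0
  push_cast
  have e1 : (0 : ℝ) ≤ (l : ℝ) * i := by positivity
  have e2 : (0 : ℝ) ≤ (l : ℝ) * j := by positivity
  have e3 : (0 : ℝ) ≤ (kx : ℝ) := by positivity
  have e4 : (0 : ℝ) ≤ (ky : ℝ) := by positivity
  nlinarith [mul_nonneg e1 e3, mul_nonneg e1 e4, mul_nonneg e2 e3, mul_nonneg e2 e4]

end Pool.Agent.Helper13.MW
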