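import Pool.Agent.Helper13.MW.MUE
import Pool.Agent.Helper13.MW.SHC
import Pool.Agent.Helper13.MS.MUF

/-!
# MW-MUF: weighted version of MS/MUF.lean
-/

set_option autoImplicit false

namespace Pool.Agent.Helper13.MW

open Pool.Agent.Helper13.MS

private theorem one_ge56 {V : Type} [CommGroup V] (H : HFun V) (x y : V) (L N : ℕ) (hN : 1 ≤ N)
    (h : (N : ℝ) ^ 2 * Real.log 2 ≤ H.h (grid x y L N)) : Real.log 2 ≤ H.h {1} := by
  have h1 := dil_grid_mul (1 : V) x y L 1 N le_rfl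
  rw [one_mul, grid_one] at h1
  have h2 := gain_zero_dil H 1 (grid x y L N)
  rw [h1] at h2
  have h3 := gain_sum_le H 0 (Finset.univ : Finset (Fin N × Fin N))
    (fun p => dil (1 * (x ^ (L * (1 * (p.1 : ℕ))) * y ^ (L * (1 * (p.2 : ℕ))))) ({1} : Multiset V))
  rw [h2] at h3
  have h4 : ∀ p ∈ (Finset.univ : Finset (Fin N × Fin N)),
      gain H 0 (dil (1 * (x ^ (L * (1 * (p.1 : ℕ))) * y ^ (L * (1 * (p.2 : ℕ))))) ({1} : Multiset V))
        = H.h {1} := fun p _ => gain_zero_dil H _ _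
  rw [Finset.sum_congr rfl h4, Finset.sum_const, Finset.card_univ, Fintype.card_prod, Fintype.card_fin,
    nsmul_eq_mul, Nat.cast_mul] at h3
  have hN' : (0 : ℝ) < (N : ℝ) ^ 2 := by
    have : (0 : ℝ) < N := by exact_mod_cast hN
    positivity
  have h5 : (N : ℝ) ^ 2 * Real.log 2 ≤ (N : ℝ) ^ 2 * H.h {1} := by
    rw [sq (N : ℝ)] at h ⊢
    exact h.trans h3
  exact le_of_mul_le_mul_left h5 hN'

private theorem sqrt_even56 {c : ℕ} (hc : 1 ≤ c) :
    (c : ℝ) ≤ ((2 * Nat.sqrt c : ℕ) : ℝ) ^ 2 ∧ ((2 * Nat.sqrt c : ℕ) : ℝ) ≤ 2 * √(c : ℝ) := by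
  have h0 : 1 ≤ Nat.sqrt c := Nat.sqrt_pos.2 hc
  have h1 : c < (Nat.sqrt c + 1) ^ 2 := Nat.lt_succ_sqrt' c
  have h2 : Nat.sqrt c ^ 2 ≤ c := Nat.sqrt_le' c
  constructor
  · have h3 : (Nat.sqrt c + 1) ^ 2 ≤ (2 * Nat.sqrt c) ^ 2 := Nat.pow_le_pow_left (by omega) 2
    exact_mod_cast h1.le.trans h3
  · have h4 : ((Nat.sqrt c : ℕ) : ℝ) ≤ √(c : ℝ) := by
      apply Real.le_sqrt_of_sq_le
      exact_mod_cast h2
    push_cast
    linarith

theorem multi {V Ω : Type} [CommGroup V] [Fintype Ω] (H : HFun V) (s : Ω → V) (σ : Ω ≃ Ω) (hσ : ∀ ω, s (σ ω) = (s ω)⁻¹)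
    (p : Ω → ℝ) (hp : Wt p σ)
    (α β : Ω) (x y : V) (hx : x ∈ Subgroup.closure (Set.range s)) (hy : y ∈ Subgroup.closure (Set.range s))
    (hfree : ∃ C : ℝ, 0 < C ∧ ∀ N L : ℕ, 2 ≤ N → 1 ≤ L → C * Real.log N ≤ (L : ℝ) ^ 2 →
      (N : ℝ) ^ 2 * Real.log 2 ≤ H.h (grid x y L N)) (K : ℕ) :
    ∃ c0 : ℕ, ∀ c : ℕ, c0 ≤ c → ∀ J : ℕ, J ≤ c ^ (4 * (K + 1)) →
      (J : ℝ) * (p α * p β * Real.log 2 / 2) ≤ (Aw s p α β (c ^ 8))^[J] (fun S _ => H.h S) 0 1 := by
  have hp0 : ∀ ω, 0 ≤ p ω := fun ω => (hp.pos ω).le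
  have hp1 := hp.sum
  obtain ⟨C, hC⟩ := shift_gen s σ hσ p hp x y hx hy
  have hCs : ShiftBoundW s p x y C := hC
  have hC0 : 0 < C := hC.1
  obtain ⟨C', hC'0, hfree⟩ := hfree
  have hlog2 : 0 < Real.log 2 := Real.log_pos one_lt_two
  -- the choice of `c0`
  obtain ⟨c1, hc1⟩ : ∃ c1 : ℕ, ∀ c : ℕ, c1 ≤ c → C' * ((2 * K + 3 : ℕ) : ℝ) * Real.log c ≤ c := by
    have hpos : (0 : ℝ) < C' * ((2 * K + 3 : ℕ) : ℝ) := by positivity
    have h1 := (Real.isLittleO_log_id_atTop.def (inv_pos.2 hpos))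
    have h2 := tendsto_natCast_atTop_atTop (R := ℝ) |>.eventually h1
    obtain ⟨c1, hc1⟩ := Filter.eventually_atTop.1 h2
    refine ⟨c1, fun c hc => ?_⟩
    have h3 := hc1 c hc
    simp only [id, Real.norm_eq_abs, Nat.abs_cast] at h3
    have h4 : Real.log c ≤ (C' * ((2 * K + 3 : ℕ) : ℝ))⁻¹ * c := (le_abs_self _).trans h3
    calc C' * ((2 * K + 3 : ℕ) : ℝ) * Real.log c
        ≤ C' * ((2 * K + 3 : ℕ) : ℝ) * ((C' * ((2 * K + 3 : ℕ) : ℝ))⁻¹ * c) :=
          mul_le_mul_of_nonneg_left h4 hpos.le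
      _ = c := by rw [← mul_assoc, mul_inv_cancel₀ hpos.ne', one_mul]
  obtain ⟨c2, hc2⟩ := exists_nat_ge ((2 * ((K : ℝ) + 1) * (1 + 4 * C)) ^ 2)
  obtain ⟨N0, hN0⟩ := exists_nat_ge (C' * Real.log 2)
  refine ⟨c1 + c2 + 2, fun c hc J hJ => ?_⟩
  have hcge2 : 2 ≤ c := by omega
  have hcR : (2 : ℝ) ≤ c := by exact_mod_cast hcge2
  obtain ⟨hL1, hL2⟩ := sqrt_even56 (show 1 ≤ c by omega)
  set L : ℕ := 2 * Nat.sqrt c with hLdef
  have hLe : Even L := ⟨Nat.sqrt c, by omega⟩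
  have hLpos : 1 ≤ L := by
    have : 1 ≤ Nat.sqrt c := Nat.sqrt_pos.2 (by omega)
    omega
  have hcsq : C' * ((2 * K + 3 : ℕ) : ℝ) * Real.log c ≤ (L : ℝ) ^ 2 := (hc1 c (by omega)).trans hL1
  -- the error
  have hs : 2 * ((K : ℝ) + 1) * (1 + 4 * C) ≤ √(c : ℝ) := by
    apply Real.le_sqrt_of_sq_le
    refine hc2.trans ?_
    exact_mod_cast (by omega : c2 ≤ c)
  have hsc : √(c : ℝ) * √(c : ℝ) = c := Real.mul_self_sqrt (by positivity)
  have hsc1 : 1 ≤ √(c : ℝ) := by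
    rw [Real.one_le_sqrt]
    linarith
  have herr : ((K : ℝ) + 1) * (1 / (c : ℝ) ^ 2 + 2 * C * L / c) ≤ 1 / 2 := by
    have e1 : 1 / (c : ℝ) ^ 2 ≤ 1 / √(c : ℝ) := by
      apply one_div_le_one_div_of_le (by linarith)
      nlinarith
    have e2 : 2 * C * L / c ≤ 4 * C / √(c : ℝ) := by
      rw [div_le_div_iff₀ (by linarith) (by linarith)]
      have e3 : 2 * C * (L : ℝ) * √(c : ℝ) ≤ 2 * C * (2 * √(c : ℝ)) * √(c : ℝ) := by
        have := mul_le_mul_of_nonneg_left hL2 (show 0 ≤ 2 * C by linarith)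
        exact mul_le_mul_of_nonneg_right this (by linarith)
      calc 2 * C * (L : ℝ) * √(c : ℝ) ≤ 2 * C * (2 * √(c : ℝ)) * √(c : ℝ) := e3
        _ = 4 * C * (√(c : ℝ) * √(c : ℝ)) := by ring
        _ = 4 * C * c := by rw [hsc]
    have e4 : 1 / (c : ℝ) ^ 2 + 2 * C * L / c ≤ (1 + 4 * C) / √(c : ℝ) := by
      rw [add_div]
      exact add_le_add e1 e2
    have hK : (0 : ℝ) ≤ (K : ℝ) + 1 := by positivity
    calc ((K : ℝ) + 1) * (1 / (c : ℝ) ^ 2 + 2 * C * L / c)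
        ≤ ((K : ℝ) + 1) * ((1 + 4 * C) / √(c : ℝ)) := mul_le_mul_of_nonneg_left e4 hK
      _ = (((K : ℝ) + 1) * (1 + 4 * C)) / √(c : ℝ) := by ring
      _ ≤ 1 / 2 := by
          rw [div_le_div_iff₀ (by linarith) (by norm_num)]
          linarith
  have hε : (0 : ℝ) ≤ 1 / (c : ℝ) ^ 2 + 2 * C * L / c := by positivity
  have hε1 : (0 : ℝ) ≤ 1 / (c : ℝ) ^ 2 := by positivity
  -- the main estimate
  have key : ∀ j ∈ Finset.range J,
      Real.log 2 / 2 ≤ (Aw s p α β (c ^ 8))^[j] (fun S v => gain H S {v}) 0 1 := by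
    intro j hj
    have hjJ : j < J := Finset.mem_range.1 hj
    rcases Nat.eq_zero_or_pos j with rfl | hj1
    · show Real.log 2 / 2 ≤ gain H 0 {1}
      have h1 : Real.log 2 ≤ H.h {1} := by
        refine one_ge56 H x y (N0 + 1) 2 (by norm_num) (hfree 2 (N0 + 1) le_rfl (by omega) ?_)
        push_cast
        have hN1 : (0 : ℝ) ≤ N0 := by positivity
        nlinarith
      have h2 : gain H 0 {1} = H.h {1} := by
        rw [gain, H.zero, zero_add, sub_zero]
      rw [h2]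
      linarith
    · have hex : ∃ k, j ≤ c ^ (4 * k + 4) := ⟨K, by
        refine (hjJ.trans_le hJ).le.trans (le_of_eq ?_)
        congr 1⟩
      classical
      obtain ⟨k, hk, hkmin⟩ : ∃ k, j ≤ c ^ (4 * k + 4) ∧ ∀ k' < k, ¬ j ≤ c ^ (4 * k' + 4) :=
        ⟨Nat.find hex, Nat.find_spec hex, fun k' hk' => Nat.find_min hex hk'⟩
      have hkK : k ≤ K := by
        by_contra hcon
        refine hkmin K (by omega) ?_
        refine (hjJ.trans_le hJ).le.trans (le_of_eq ?_)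
        congr 1
      have hT : TT c k ≤ j := by
        cases k with
        | zero => exact Nat.zero_le _
        | succ k =>
          have := hkmin k (by omega)
          exact (not_le.1 this).le
      have hTmono : ∀ i, TT c i ≤ TT c (i + 1) := by
        intro i
        cases i with
        | zero => exact Nat.zero_le _
        | succ i => exact Nat.pow_le_pow_right (by omega) (by omega)
      -- levels
      have hlev : ∀ i, TT c i ≤ j →
          ddw H s p α β x y c L i j - (i : ℝ) * ((1 / (c : ℝ) ^ 2 + 2 * C * L / c) * Real.log 2)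
            ≤ ddw H s p α β x y c L 0 j := by
        intro i
        induction i with
        | zero =>
          intro _
          simp
        | succ i ih =>
          intro hi
          have h1 := ih ((hTmono i).trans hi)
          have h2 := level H s p hp0 hp1 α β x y C hCs c L i j hcge2 hLe hi
          push_cast
          linarith
      have hMM : 2 ≤ MM c k := by
        have : c ^ 1 ≤ c ^ (2 * k + 3) := Nat.pow_le_pow_right (by omega) (by omega)
        have h3 : MM c k = c ^ (2 * k + 3) := rfl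
        rw [h3]
        rw [pow_one] at this
        exact hcge2.trans this
      have hlogM : C' * Real.log (MM c k) ≤ (L : ℝ) ^ 2 := by
        refine le_trans ?_ hcsq
        have h3 : ((MM c k : ℕ) : ℝ) = (c : ℝ) ^ (2 * k + 3) := by
          have : MM c k = c ^ (2 * k + 3) := rfl
          rw [this]
          push_cast
          rfl
        rw [h3, Real.log_pow, mul_assoc]
        apply mul_le_mul_of_nonneg_left _ hC'0.le
        apply mul_le_mul_of_nonneg_right _ (Real.log_nonneg (by linarith))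
        exact_mod_cast (by omega : 2 * k + 3 ≤ 2 * K + 3)
      have htop := top H s p hp0 hp1 α β x y c L k j hcge2 (hfree (MM c k) L hMM hLpos hlogM) hT hk
      have hbase := base H s p hp0 hp1 α β x y C hCs c L j hcge2 hLe hj1
      have hl := hlev k hT
      have hkR : (k : ℝ) ≤ K := by exact_mod_cast hkK
      have hmul : (k : ℝ) * ((1 / (c : ℝ) ^ 2 + 2 * C * L / c) * Real.log 2)
          ≤ (K : ℝ) * ((1 / (c : ℝ) ^ 2 + 2 * C * L / c) * Real.log 2) :=
        mul_le_mul_of_nonneg_right hkR (mul_nonneg hε hlog2.le)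
      have herr2 : ((K : ℝ) + 1) * (1 / (c : ℝ) ^ 2 + 2 * C * L / c) * Real.log 2 ≤ 1 / 2 * Real.log 2 :=
        mul_le_mul_of_nonneg_right herr hlog2.le
      generalize (1 / (c : ℝ) ^ 2) = e1 at *
      generalize (2 * C * L / c : ℝ) = e2 at *
      nlinarith
  rw [Aw_telescope H s p hp1]
  have hsum : (J : ℝ) * (Real.log 2 / 2)
      ≤ ∑ j ∈ Finset.range J, (Aw s p α β (c ^ 8))^[j] (fun S v => gain H S {v}) 0 1 := by
    have h1 := Finset.card_nsmul_le_sum (Finset.range J) _ _ key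
    rwa [Finset.card_range, nsmul_eq_mul] at h1
  have hαβ : 0 ≤ p α * p β := mul_nonneg (hp0 α) (hp0 β)
  calc (J : ℝ) * (p α * p β * Real.log 2 / 2) = p α * p β * ((J : ℝ) * (Real.log 2 / 2)) := by ring
    _ ≤ _ := mul_le_mul_of_nonneg_left hsum hαβ

end Pool.Agent.Helper13.MW
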