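import Pool.Agent.Helper13.MW.QB
import Pool.Agent.Helper13.MS.QE

/-!
# MW-QE: weighted version of MS/QE.lean (adapt the proofs there)
-/

set_option autoImplicit false

namespace Pool.Agent.Helper13.MW

open Pool.Agent.Helper13.MS

variable {G Ω : Type} [Group G] [Fintype Ω]

private theorem sum_ofFnw38 (s : Ω → G) (p : Ω → ℝ) (n : ℕ) (f : G → ℝ) (x : G) :
    (∑ w : Fin n → Ω, (∏ i, p (w i)) * f (x * (List.ofFn fun i => s (w i)).prod)) =
      (Qw s p)^[n] f x := by
  induction n generalizing x with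
  | zero => simp
  | succ n ih =>
    rw [Function.iterate_succ_apply']
    unfold Qw
    unfold Qw at ih
    simp only [← ih]
    rw [← (Fin.consEquiv (fun _ : Fin (n + 1) => Ω)).sum_comp, Fintype.sum_prod_type]
    refine Finset.sum_congr rfl fun ω _ => ?_
    rw [Finset.mul_sum]
    refine Finset.sum_congr rfl fun w _ => ?_
    rw [Fin.prod_univ_succ, List.ofFn_succ, List.prod_cons, mul_assoc, mul_assoc]
    simp [Fin.consEquiv]

private theorem le_Qw38 (s : Ω → G) (σ : Ω ≃ Ω) (hσ : ∀ ω, s (σ ω) = (s ω)⁻¹)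
    (hs : Subgroup.closure (Set.range s) = ⊤) (p : Ω → ℝ) (hp : ∀ ω, 0 ≤ p ω) (h1 : ∑ ω, p ω = 1)
    (g : G) :
    (wordLength (Set.range s) g : ℝ) ≤
      Qw s p (fun g => (wordLength (Set.range s) g : ℝ)) g + 1 := by
  have h2 : ∀ ω : Ω, wordLength (Set.range s) (s ω) ≤ 1 := by
    intro ω
    have h := wordLength_ofFn_le s 1 (fun _ => ω)
    simpa using h
  have h3 : ∀ ω : Ω, (wordLength (Set.range s) g : ℝ) ≤ wordLength (Set.range s) (g * s ω) + 1 := by
    intro ω
    have h3 := wordLength_mul_le s σ hσ hs (g * s ω) (s ω)⁻¹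
    rw [mul_inv_cancel_right, wordLength_inv s σ hσ hs] at h3
    have h4 := h2 ω
    have h5 : wordLength (Set.range s) g ≤ wordLength (Set.range s) (g * s ω) + 1 := by omega
    exact_mod_cast h5
  unfold Qw
  rw [← sub_le_iff_le_add]
  calc ((wordLength (Set.range s) g : ℝ) - 1)
      = ∑ ω : Ω, p ω * ((wordLength (Set.range s) g : ℝ) - 1) := by
        rw [← Finset.sum_mul, h1, one_mul]
    _ ≤ _ := Finset.sum_le_sum fun ω _ => mul_le_mul_of_nonneg_left (by linarith [h3 ω]) (hp ω)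

theorem elw_eq (s : Ω → G) (p : Ω → ℝ) (n : ℕ) :
    elw s p n = (Qw s p)^[n] (fun g => (wordLength (Set.range s) g : ℝ)) 1 := by
  have h := sum_ofFnw38 s p n (fun g => (wordLength (Set.range s) g : ℝ)) 1
  simp only [one_mul] at h
  exact h

theorem elw_nonneg (s : Ω → G) (p : Ω → ℝ) (hp : ∀ ω, 0 ≤ p ω) (n : ℕ) : 0 ≤ elw s p n := by
  unfold elw
  exact Finset.sum_nonneg fun w _ =>
    mul_nonneg (Finset.prod_nonneg fun i _ => hp _) (Nat.cast_nonneg _)

theorem elw_le (s : Ω → G) (p : Ω → ℝ) (hp : ∀ ω, 0 ≤ p ω) (h1 : ∑ ω, p ω = 1) (n : ℕ) : elw s p n ≤ n := by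
  have h2 : ∑ w : Fin n → Ω, (∏ i, p (w i)) = 1 := by
    have h := sum_ofFnw38 (G := G) s p n (fun _ => (1 : ℝ)) 1
    rw [Qw_iterate_const s p h1] at h
    simpa using h
  calc elw s p n ≤ ∑ w : Fin n → Ω, (∏ i, p (w i)) * (n : ℝ) := by
        unfold elw
        refine Finset.sum_le_sum fun w _ => mul_le_mul_of_nonneg_left ?_
          (Finset.prod_nonneg fun i _ => hp _)
        exact_mod_cast wordLength_ofFn_le s n w
    _ = n := by rw [← Finset.sum_mul, h2, one_mul]

theorem elw_le_add (s : Ω → G) (σ : Ω ≃ Ω) (hσ : ∀ ω, s (σ ω) = (s ω)⁻¹)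
    (hs : Subgroup.closure (Set.range s) = ⊤) (p : Ω → ℝ) (hp : Wt p σ) (m k : ℕ) : elw s p m ≤ elw s p (m + k) + k := by
  induction k with
  | zero => simp
  | succ k ih =>
    refine ih.trans ?_
    have h1 : elw s p (m + k) ≤ elw s p (m + (k + 1)) + 1 := by
      rw [elw_eq, elw_eq, ← add_assoc, Function.iterate_succ_apply]
      refine (Qw_iterate_mono s p (fun ω => (hp.pos ω).le)
        (le_Qw38 s σ hσ hs p (fun ω => (hp.pos ω).le) hp.sum) (m + k) 1).trans ?_
      rw [Qw_iterate_add, Qw_iterate_const s p hp.sum]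
    push_cast
    linarith

end Pool.Agent.Helper13.MW
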