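import Pool.Agent.Helper13.MW.SWC
import Pool.Agent.Helper13.MW.QE
import Pool.Agent.Helper13.MS.SWD

/-!
# MW-SWD: weighted version of `swapping` in MS/SWD.lean
-/

set_option autoImplicit false

namespace Pool.Agent.Helper13.MW

open Pool.Agent.Helper13.MS

theorem swapping {G K Ω : Type} [Group G] [Field K] [Fintype Ω] [Nonempty Ω] (Tw : Twisted G K)
    (s : Ω → G) (σ : Ω ≃ Ω) (hσ : ∀ ω, s (σ ω) = (s ω)⁻¹) (hs : Subgroup.closure (Set.range s) = ⊤)
    (p : Ω → ℝ) (hp : Wt p σ)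
    (α β : Ω) (hαβ : Tw.φ (s β * s α * (s β)⁻¹ * (s α)⁻¹) ≠ 0) (m J : ℕ) (hm : 1 ≤ m) :
    (Aw (fun ω => Tw.χ (s ω)) p α β m)^[J] (fun S _ => (hfun K).h S) 0 1 ≤
      (Real.log 2 + Real.log (Fintype.card Ω)) * elw s p (2 * m * J) + Real.log 2 := by
  have hp0 : ∀ ω, 0 ≤ p ω := fun ω => (hp.pos ω).le
  have hstep : ∀ (f : G → ℝ) (F : Multiset Kˣ → Kˣ → ℝ),
      Dom Tw (Tw.φ (s β * s α * (s β)⁻¹ * (s α)⁻¹)) f F →
      Dom Tw (Tw.φ (s β * s α * (s β)⁻¹ * (s α)⁻¹)) ((Qw s p)^[2 * m] f)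
        (Aw (fun ω => Tw.χ (s ω)) p α β m F) := by
    intro f F h
    have h1 := dom_block Tw _ s p hp0 α β rfl _ _ (dom_letter Tw _ s p hp0 f F h (2 * m - 2))
    rw [← Function.iterate_add_apply, show 2 + (2 * m - 2) = 2 * m by omega] at h1
    exact h1
  have hall : ∀ J : ℕ, Dom Tw (Tw.φ (s β * s α * (s β)⁻¹ * (s α)⁻¹))
      ((Qw s p)^[2 * m * J] (fun g => ((wordLength (Set.range s) g : ℝ) + 1) * Real.log 2 +
        (wordLength (Set.range s) g : ℝ) * Real.log (Fintype.card Ω)))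
      ((Aw (fun ω => Tw.χ (s ω)) p α β m)^[J] (fun S _ => (hfun K).h S)) := by
    intro J
    induction J with
    | zero => simpa using dom_base Tw _ hαβ s σ hσ hs
    | succ J ih =>
      have h2 := hstep _ _ ih
      rw [← Function.iterate_add_apply, show 2 * m + 2 * m * J = 2 * m * (J + 1) by ring] at h2
      rw [Function.iterate_succ_apply']
      exact h2
  have h3 := hall J Unit (fun _ => 1) 0 1 (adm_one Tw _)
  refine h3.trans (le_of_eq ?_)
  have h4 : (fun g => ((wordLength (Set.range s) g : ℝ) + 1) * Real.log 2 +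
        (wordLength (Set.range s) g : ℝ) * Real.log (Fintype.card Ω)) =
      fun g => (Real.log 2 + Real.log (Fintype.card Ω)) * (wordLength (Set.range s) g : ℝ) +
        Real.log 2 := by
    funext g
    ring
  rw [h4, elw_eq]
  simp only [Finset.univ_unique, Finset.sum_const, Finset.card_singleton, one_smul,
    Fintype.card_unit, Nat.cast_one, div_one]
  rw [Qw_iterate_affine s p hp.sum]

end Pool.Agent.Helper13.MW
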