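import Pool.Agent.Helper13.MW.MUF
import Pool.Agent.Helper13.MW.SWD
import Pool.Agent.Helper13.MW.FN
import Pool.Agent.Helper13.MW.NAD
import Pool.Agent.Helper13.MW.CMP
import Pool.Agent.Helper13.MS.HNF
import Pool.Agent.Helper13.MS.MOB
import Pool.Agent.Helper13.MS.FPF
import Pool.Agent.Helper13.MT.A1

/-!
# MW: main theorems (assembly), weighted version
-/

set_option autoImplicit false

namespace Pool.Agent.Helper13.MW

open Pool.Agent.Helper13.MS Pool.Agent.Helper13.MT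

theorem main_of_freePlane {G K : Type} [Group G] [Field K] (Tw : Twisted G K) (hφ : ∃ g ∈ commutator G, Tw.φ g ≠ 0)
    (g₁ g₂ : G) (x y : Kˣ) (hx : x ∈ Subgroup.closure {Tw.χ g₁, Tw.χ g₂}) (hy : y ∈ Subgroup.closure {Tw.χ g₁, Tw.χ g₂})
    (hxy : FreePlane (x : K) (y : K))
    (Ω : Type) [Fintype Ω] [Nonempty Ω] (s : Ω → G) (σ : Ω ≃ Ω) (hσ : ∀ ω, s (σ ω) = (s ω)⁻¹)
    (hs : Subgroup.closure (Set.range s) = ⊤) (p : Ω → ℝ) (hp : Wt p σ) :
    Filter.Tendsto (fun n : ℕ => Real.log (elw s p n) / Real.log n) Filter.atTop (nhds 1) := by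
  obtain ⟨α, β, hαβ⟩ := exists_pair Tw hφ s hs
  set s' : Ω → Kˣ := fun ω => Tw.χ (s ω) with hs'
  have hσ' : ∀ ω, s' (σ ω) = (s' ω)⁻¹ := fun ω => by simp [hs', hσ]
  have hcl : ∀ g : G, Tw.χ g ∈ Subgroup.closure (Set.range s') := by
    intro g
    have h1 : g ∈ Subgroup.closure (Set.range s) := hs ▸ Subgroup.mem_top g
    have h2 : Set.range s' = Tw.χ '' Set.range s := by
      rw [← Set.range_comp]; rfl
    rw [h2, ← MonoidHom.map_closure]
    exact ⟨g, h1, rfl⟩
  have hcl2 : Subgroup.closure {Tw.χ g₁, Tw.χ g₂} ≤ Subgroup.closure (Set.range s') := by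
    rw [Subgroup.closure_le]
    rintro z (rfl | rfl)
    · exact hcl _
    · exact hcl _
  have hm := fun Kn : ℕ => multi (hfun K) s' σ hσ' p hp α β x y (hcl2 hx) (hcl2 hy) (hK_grid x y hxy) Kn
  set D : ℝ := Real.log 2 + Real.log (Fintype.card Ω) with hD
  have hl2 : 0 < Real.log 2 := Real.log_pos (by norm_num)
  have hcard : (1 : ℝ) ≤ Fintype.card Ω := by exact_mod_cast Fintype.card_pos
  have hD0 : 0 < D := by
    have := Real.log_nonneg hcard
    linarith
  have hpα := hp.pos α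
  have hpβ := hp.pos β
  refine tendsto_of_multi _ (elw_nonneg s p fun ω => (hp.pos ω).le) (elw_le s p (fun ω => (hp.pos ω).le) hp.sum)
    (elw_le_add s σ hσ hs p hp) (p α * p β * Real.log 2 / 2 / D) (Real.log 2 / D) (by positivity) ?_
  intro Kn
  obtain ⟨c0, hc0⟩ := hm Kn
  refine ⟨max c0 1, fun c hc J hJ => ?_⟩
  have h1 := hc0 c (le_trans (le_max_left _ _) hc) J hJ
  have hc1 : 1 ≤ c := le_trans (le_max_right _ _) hc
  have h2 := swapping Tw s σ hσ hs p hp α β hαβ (c ^ 8) J (Nat.one_le_pow _ _ hc1)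
  have h3 := le_trans h1 h2
  rw [← hD] at h3
  rw [div_mul_eq_mul_div, ← sub_div, div_le_iff₀ hD0]
  linarith

theorem main (G : Type) [Group G] [Group.IsFinitelyPresented G]
    (hinf : ¬ FiniteDimensional ℚ (TensorProduct ℤ ℚ (Additive (Abelianization (commutator G)))))
    (Ω : Type) [Fintype Ω] [Nonempty Ω] (s : Ω → G) (σ : Ω ≃ Ω) (hσ : ∀ ω, s (σ ω) = (s ω)⁻¹)
    (hs : Subgroup.closure (Set.range s) = ⊤) (p : Ω → ℝ) (hp : Wt p σ) :
    Filter.Tendsto (fun n : ℕ => Real.log (elw s p n) / Real.log n) Filter.atTop (nhds 1) := by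
  by_cases hfree : NoFree G
  swap
  · unfold NoFree at hfree
    push Not at hfree
    obtain ⟨f, hf⟩ := hfree
    obtain ⟨δ, n0, hδ, h⟩ := linear_of_free s σ hσ hs p hp f hf
    exact tendsto_of_linear _ (elw_le s p (fun ω => (hp.pos ω).le) hp.sum) δ hδ n0 h
  have : Group.FG G := by
    rw [Group.fg_iff]
    exact ⟨Set.range s, hs, Set.finite_range s⟩
  obtain ⟨K, _, _, Tw, hφ, t, ht⟩ := exists_twisted G hinf
  obtain ⟨g₁, g₂, h12⟩ := two_directions hfree Tw hφ t ht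
  obtain ⟨x, hx, y, hy, hxy⟩ := exists_freePlane (Tw.χ g₁) (Tw.χ g₂) h12
  exact main_of_freePlane Tw hφ g₁ g₂ x y hx hy hxy Ω s σ hσ hs p hp

/-- from weighted families to step laws -/
theorem tendsto_expLen {G : Type} [Group G] (β : ℝ)
    (h : ∀ (Ω : Type) [Fintype Ω] [Nonempty Ω] (s : Ω → G) (σ : Ω ≃ Ω), (∀ ω, s (σ ω) = (s ω)⁻¹) →
      Subgroup.closure (Set.range s) = ⊤ → ∀ p : Ω → ℝ, Wt p σ →
      Filter.Tendsto (fun n : ℕ => Real.log (elw s p n) / Real.log n) Filter.atTop (nhds β))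
    (S : Finset G) (hS : Subgroup.closure (S : Set G) = ⊤) (μ : G →₀ ℝ) (h0 : ∀ g, 0 ≤ μ g) (h1 : (μ.sum fun _ a => a) = 1)
    (hsymm : ∀ g, μ g⁻¹ = μ g) (hgen : Subgroup.closure (μ.support : Set G) = ⊤) :
    Filter.Tendsto (fun n : ℕ => Real.log (expLen (S : Set G) μ n) / Real.log n) Filter.atTop (nhds β) := by
  obtain ⟨c, C, hc, hC, hcmp⟩ := compare μ h0 hsymm hgen S hS
  have hne : Nonempty μ.support := by
    by_contra hcon
    rw [not_nonempty_iff] at hcon
    have : μ.support = ∅ := by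
      rw [Finset.eq_empty_iff_forall_notMem]
      exact fun g hg => hcon.elim ⟨g, hg⟩
    rw [Finsupp.sum, this] at h1
    simp at h1
  have hmem : ∀ g : G, g ∈ μ.support → g⁻¹ ∈ μ.support := fun g hg => by
    rw [Finsupp.mem_support_iff] at hg ⊢
    rwa [hsymm]
  let σ : μ.support ≃ μ.support :=
    { toFun := fun g => ⟨(g : G)⁻¹, hmem _ g.2⟩
      invFun := fun g => ⟨(g : G)⁻¹, hmem _ g.2⟩
      left_inv := fun g => Subtype.ext (inv_inv _)
      right_inv := fun g => Subtype.ext (inv_inv _) }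
  have hp : Wt (fun g : μ.support => μ g) σ := by
    refine ⟨fun g => ?_, ?_, fun g => hsymm _⟩
    · exact lt_of_le_of_ne (h0 _) (Ne.symm (Finsupp.mem_support_iff.mp g.2))
    · rw [← h1, Finsupp.sum]
      exact Finset.sum_coe_sort μ.support (fun g => μ g)
  have hr : Subgroup.closure (Set.range fun g : μ.support => (g : G)) = ⊤ := by
    rw [← hgen]
    congr 1
    ext g
    simp
  have hx := h μ.support (fun g => (g : G)) σ (fun g => rfl) hr (fun g => μ g) hp
  exact tendsto_of_compare _ _ c C β hc hC (elw_nonneg _ _ fun g => h0 _) hcmp hx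

end Pool.Agent.Helper13.MW
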