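import Pool.Agent.Helper13.MW.QE
import Pool.Agent.Helper13.MS.NAC2

/-!
# MW-NAC: weighted versions of MS/NAC.lean and MS/NAC2.lean
-/

set_option autoImplicit false

namespace Pool.Agent.Helper13.MW

open Pool.Agent.Helper13.MS

/-- the law of one step -/
noncomputable def stepLaw {G Ω : Type} [Group G] [Fintype Ω] (s : Ω → G) (p : Ω → ℝ) : MonoidAlgebra ℝ G :=
  ∑ ω, MonoidAlgebra.single (s ω) (p ω)

private noncomputable def ev_27 {G : Type} (f : G → ℝ) : MonoidAlgebra ℝ G →+ ℝ :=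
  (Finsupp.liftAddHom fun g => AddMonoidHom.mulRight (f g)).comp
    MonoidAlgebra.coeffAddEquiv.toAddMonoidHom

private theorem ev_apply_27 {G : Type} (f : G → ℝ) (p : MonoidAlgebra ℝ G) :
    ev_27 f p = p.coeff.sum fun g a => a * f g := rfl

private theorem ev_single_27 {G : Type} (f : G → ℝ) (g : G) (a : ℝ) :
    ev_27 f (MonoidAlgebra.single g a) = a * f g := by
  rw [ev_apply_27, MonoidAlgebra.coeff_single, Finsupp.sum_single_index]
  rw [zero_mul]

private theorem ev_single_mul_27 {G : Type} [Group G] (f : G → ℝ) (g : G) (a : ℝ)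
    (p : MonoidAlgebra ℝ G) :
    ev_27 f (MonoidAlgebra.single g a * p) = a * ev_27 (fun y => f (g * y)) p := by
  have h1 : (ev_27 f).comp (AddMonoidHom.mulLeft (MonoidAlgebra.single g a)) =
      (AddMonoidHom.mulLeft a).comp (ev_27 fun y => f (g * y)) := by
    apply MonoidAlgebra.addMonoidHom_ext
    intro m r
    show ev_27 f (MonoidAlgebra.single g a * MonoidAlgebra.single m r) =
      a * ev_27 (fun y => f (g * y)) (MonoidAlgebra.single m r)
    rw [MonoidAlgebra.single_mul_single, ev_single_27, ev_single_27, mul_assoc]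
  exact DFunLike.congr_fun h1 p

private theorem iterate_27 {G Ω : Type} [Group G] [Fintype Ω] (s : Ω → G) (p : Ω → ℝ) (f : G → ℝ) (n : ℕ) :
    ∀ x : G, (Qw s p)^[n] f x = ev_27 (fun y => f (x * y)) (stepLaw s p ^ n) := by
  induction n with
  | zero =>
    intro x
    rw [pow_zero, MonoidAlgebra.one_def, ev_single_27, one_mul, mul_one]
    rfl
  | succ n ih =>
    intro x
    rw [Function.iterate_succ_apply', pow_succ']
    unfold stepLaw at ih ⊢
    rw [Finset.sum_mul, map_sum]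
    show (∑ ω, p ω * (Qw s p)^[n] f (x * s ω)) = _
    refine Finset.sum_congr rfl fun ω _ => ?_
    rw [ev_single_mul_27, ih]
    simp only [mul_assoc]

private theorem coeff_step_mul27 {G Ω : Type} [Group G] [Fintype Ω] (s : Ω → G) (p : Ω → ℝ) (x : MonoidAlgebra ℝ G) (g : G) :
    (stepLaw s p * x).coeff g = ∑ ω, p ω * x.coeff ((s ω)⁻¹ * g) := by
  unfold stepLaw
  rw [Finset.sum_mul, MonoidAlgebra.coeff_sum, Finsupp.finsetSum_apply]
  refine Finset.sum_congr rfl fun ω _ => ?_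
  rw [MonoidAlgebra.coeff_single_mul_apply]

theorem Qw_iterate_eq_sum {G Ω : Type} [Group G] [Fintype Ω] (s : Ω → G) (p : Ω → ℝ) (f : G → ℝ) (n : ℕ) :
    (Qw s p)^[n] f 1 = (stepLaw s p ^ n).coeff.sum fun g a => a * f g := by
  rw [iterate_27]
  simp only [one_mul]
  rfl

theorem stepLaw_nonneg {G Ω : Type} [Group G] [Fintype Ω] (s : Ω → G) (p : Ω → ℝ) (hp : ∀ ω, 0 ≤ p ω) (n : ℕ) (g : G) :
    0 ≤ (stepLaw s p ^ n).coeff g := by
  induction n generalizing g with
  | zero =>
    rw [pow_zero, MonoidAlgebra.one_def, MonoidAlgebra.coeff_single]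
    classical
    rw [Finsupp.single_apply]
    split_ifs
    · exact zero_le_one
    · exact le_rfl
  | succ n ih =>
    rw [pow_succ', coeff_step_mul27]
    exact Finset.sum_nonneg fun ω _ => mul_nonneg (hp ω) (ih _)

theorem stepLaw_mass {G Ω : Type} [Group G] [Fintype Ω] (s : Ω → G) (p : Ω → ℝ) (h1 : ∑ ω, p ω = 1) (n : ℕ) :
    ((stepLaw s p ^ n).coeff.sum fun _ a => a) = 1 := by
  have h2 := Qw_iterate_eq_sum s p (fun _ => 1) n
  simp only [mul_one] at h2
  rw [← h2]
  have h3 : Qw s p (fun _ => (1 : ℝ)) = fun _ => 1 := by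
    funext x
    unfold Qw
    rw [← Finset.sum_mul, h1, one_mul]
  have h4 : (Qw s p)^[n] (fun _ => (1 : ℝ)) = fun _ => 1 := Function.iterate_fixed h3 n
  rw [h4]

private theorem word_pos27 {G Ω : Type} [Group G] [Fintype Ω] (s : Ω → G) (p : Ω → ℝ) (hp : ∀ ω, 0 < p ω) (l : List Ω) :
    0 < (stepLaw s p ^ l.length).coeff (l.map s).prod := by
  induction l with
  | nil => simp [MonoidAlgebra.one_def]
  | cons ω l ih =>
    rw [List.length_cons, pow_succ', coeff_step_mul27]
    refine Finset.sum_pos' (fun ω' _ => ?_) ⟨ω, Finset.mem_univ _, ?_⟩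
    · exact mul_nonneg (hp ω').le (stepLaw_nonneg s p (fun ω => (hp ω).le) _ _)
    · rw [List.map_cons, List.prod_cons, inv_mul_cancel_left]
      exact mul_pos (hp ω) ih

theorem exists_decay {G Ω : Type} [Group G] [Fintype Ω] [Nonempty Ω] (s : Ω → G) (σ : Ω ≃ Ω) (hσ : ∀ ω, s (σ ω) = (s ω)⁻¹)
    (hs : Subgroup.closure (Set.range s) = ⊤) (p : Ω → ℝ) (hp : Wt p σ) (f : FreeGroup (Fin 2) →* G) (hf : Function.Injective f) :
    ∃ (r : ℕ) (ρ : ℝ), 1 ≤ r ∧ 0 ≤ ρ ∧ ρ < 1 ∧ ∀ (n : ℕ) (g : G), (stepLaw s p ^ (2 * r * n)).coeff g ≤ ρ ^ n := by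
  classical
  obtain ⟨A, hA, hAf⟩ := pingpong_sets f hf
  let x : Fin 2 × Bool → G := fun q => f (FreeGroup.mk [q])
  have hword : ∀ q, ∃ w : List Ω, (w.map s).prod = x q := fun q => by
    obtain ⟨w, -, hw⟩ := exists_word s σ hσ hs (x q)
    exact ⟨w, hw⟩
  choose w hw using hword
  let r : ℕ := (∑ q, (w q).length) + 1
  have hwr : ∀ q, (w q).length ≤ r := fun q => by
    have : (w q).length ≤ ∑ q, (w q).length :=
      Finset.single_le_sum (f := fun q => (w q).length) (fun _ _ => Nat.zero_le _) (Finset.mem_univ q)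
    omega
  let u : Fin 2 × Bool → G := fun q => x q * x q
  have hpos : ∀ q, 0 < (stepLaw s p ^ (2 * r)).coeff (u q) := by
    intro q
    obtain ⟨l, h1, h2⟩ := pad38 s σ hσ (w q ++ w q) (r - (w q).length)
    have h3 : l.length = 2 * r := by
      rw [h1, List.length_append]
      have := hwr q
      omega
    have h4 : (l.map s).prod = u q := by
      rw [h2, List.map_append, List.prod_append, hw]
    have h5 := word_pos27 s p hp.pos l
    rwa [h3, h4] at h5
  have hinv : ∀ i b, x (i, !b) = (x (i, b))⁻¹ := by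
    intro i b
    change f _ = (f _)⁻¹
    rw [← map_inv, FreeGroup.inv_mk]
    rfl
  obtain ⟨ρ, hρ0, hρ1, hρ⟩ := contraction A hA u (by
      intro i b
      change x (i, !b) * x (i, !b) = (x (i, b) * x (i, b))⁻¹
      rw [hinv, mul_inv_rev]) (by
      intro i b g hg
      have h1 : g * x (i, b) ∈ A (i, b) := hAf i b g hg
      have h2 : g * x (i, b) ∉ A (i, !b) := fun h =>
        Set.disjoint_left.1 (hA (i, b) (i, !b) (by cases b <;> simp)) h1 h
      have h3 : g * x (i, b) * x (i, b) ∈ A (i, b) := hAf i b _ h2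
      rwa [mul_assoc] at h3)
    (stepLaw s p ^ (2 * r)) (stepLaw_nonneg s p (fun ω => (hp.pos ω).le) _)
    (stepLaw_mass s p hp.sum _) hpos
  have hn : ∀ n : ℕ, nsq (stepLaw s p ^ (2 * r * n)) ≤ (ρ ^ n) ^ 2 := by
    intro n
    induction n with
    | zero => simp [nsq, MonoidAlgebra.one_def]
    | succ n ih =>
      rw [Nat.mul_succ, pow_add]
      refine (hρ _ (stepLaw_nonneg s p (fun ω => (hp.pos ω).le) _)).trans ?_
      calc ρ ^ 2 * nsq (stepLaw s p ^ (2 * r * n)) ≤ ρ ^ 2 * (ρ ^ n) ^ 2 :=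
            mul_le_mul_of_nonneg_left ih (sq_nonneg _)
        _ = (ρ ^ (n + 1)) ^ 2 := by ring
  refine ⟨r, ρ, by omega, hρ0, hρ1, fun n g => ?_⟩
  have h1 := (coeff_sq_le_nsq38 _ g).trans (hn n)
  exact le_of_sq_le_sq h1 (pow_nonneg hρ0 n)

end Pool.Agent.Helper13.MW
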