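import Pool.Agent.Helper13.MW.Defs

/-!
# MW-QB: weighted version of MS/QB.lean
-/

set_option autoImplicit false

namespace Pool.Agent.Helper13.MW

open Pool.Agent.Helper13.MS

variable {G Ω : Type} [Group G] [Fintype Ω]

theorem Qw_iterate_mono (s : Ω → G) (p : Ω → ℝ) (hp : ∀ ω, 0 ≤ p ω) {f g : G → ℝ} (h : ∀ x, f x ≤ g x) (n : ℕ) (x : G) :
    (Qw s p)^[n] f x ≤ (Qw s p)^[n] g x := by
  induction n generalizing f g x with
  | zero => simpa using h x
  | succ n ih =>
    rw [Function.iterate_succ_apply, Function.iterate_succ_apply]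
    refine ih (fun y => ?_) x
    unfold Qw
    exact Finset.sum_le_sum fun ω _ => mul_le_mul_of_nonneg_left (h _) (hp ω)

theorem Qw_iterate_const (s : Ω → G) (p : Ω → ℝ) (h1 : ∑ ω, p ω = 1) (c : ℝ) (n : ℕ) (x : G) :
    (Qw s p)^[n] (fun _ => c) x = c := by
  induction n generalizing x with
  | zero => simp
  | succ n ih =>
    rw [Function.iterate_succ_apply]
    have : Qw s p (fun _ => c) = fun _ : G => c := by
      funext y
      simp only [Qw]
      rw [← Finset.sum_mul, h1, one_mul]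
    rw [this]
    exact ih x

theorem Qw_iterate_sum (s : Ω → G) (p : Ω → ℝ) {ι : Type} (t : Finset ι) (f : ι → G → ℝ) (n : ℕ) (x : G) :
    (Qw s p)^[n] (fun g => ∑ i ∈ t, f i g) x = ∑ i ∈ t, (Qw s p)^[n] (f i) x := by
  induction n generalizing f x with
  | zero => simp
  | succ n ih =>
    simp only [Function.iterate_succ_apply]
    rw [← ih]
    refine congrArg (fun F : G → ℝ => (Qw s p)^[n] F x) ?_
    funext y
    simp only [Qw]
    rw [Finset.sum_comm]
    exact Finset.sum_congr rfl fun ω _ => Finset.mul_sum _ _ _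

theorem Qw_iterate_add (s : Ω → G) (p : Ω → ℝ) (f g : G → ℝ) (n : ℕ) (x : G) :
    (Qw s p)^[n] (fun y => f y + g y) x = (Qw s p)^[n] f x + (Qw s p)^[n] g x := by
  induction n generalizing f g x with
  | zero => simp
  | succ n ih =>
    simp only [Function.iterate_succ_apply]
    rw [← ih]
    refine congrArg (fun F : G → ℝ => (Qw s p)^[n] F x) ?_
    funext y
    simp only [Qw]
    rw [← Finset.sum_add_distrib]
    exact Finset.sum_congr rfl fun ω _ => by ring

theorem Qw_iterate_smul (s : Ω → G) (p : Ω → ℝ) (a : ℝ) (f : G → ℝ) (n : ℕ) (x : G) :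
    (Qw s p)^[n] (fun y => a * f y) x = a * (Qw s p)^[n] f x := by
  induction n generalizing f x with
  | zero => simp
  | succ n ih =>
    simp only [Function.iterate_succ_apply]
    rw [← ih]
    refine congrArg (fun F : G → ℝ => (Qw s p)^[n] F x) ?_
    funext y
    simp only [Qw]
    rw [Finset.mul_sum]
    exact Finset.sum_congr rfl fun ω _ => by ring

theorem Qw_iterate_affine (s : Ω → G) (p : Ω → ℝ) (h1 : ∑ ω, p ω = 1) (a b : ℝ) (f : G → ℝ) (n : ℕ) (x : G) :
    (Qw s p)^[n] (fun y => a * f y + b) x = a * (Qw s p)^[n] f x + b := by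
  rw [Qw_iterate_add, Qw_iterate_smul, Qw_iterate_const s p h1]

theorem Qw_iterate_left (s : Ω → G) (p : Ω → ℝ) (u : G) (f : G → ℝ) (n : ℕ) (x : G) :
    (Qw s p)^[n] (fun y => f (u * y)) x = (Qw s p)^[n] f (u * x) := by
  induction n generalizing f x with
  | zero => simp
  | succ n ih =>
    simp only [Function.iterate_succ_apply]
    rw [← ih]
    refine congrArg (fun F : G → ℝ => (Qw s p)^[n] F x) ?_
    funext y
    simp only [Qw, mul_assoc]

theorem Qw_iterate_bounds (s : Ω → G) (p : Ω → ℝ) (hp : ∀ ω, 0 ≤ p ω) (h1 : ∑ ω, p ω = 1) {f : G → ℝ} {F : ℝ}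
    (h : ∀ x, 0 ≤ f x ∧ f x ≤ F) (n : ℕ) (x : G) : 0 ≤ (Qw s p)^[n] f x ∧ (Qw s p)^[n] f x ≤ F := by
  constructor
  · have := Qw_iterate_mono s p hp (f := fun _ => 0) (g := f) (fun y => (h y).1) n x
    rwa [Qw_iterate_const s p h1] at this
  · have := Qw_iterate_mono s p hp (f := f) (g := fun _ => F) (fun y => (h y).2) n x
    rwa [Qw_iterate_const s p h1] at this

end Pool.Agent.Helper13.MW
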