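import Pool.Agent.Helper13.MW.QB
import Pool.Agent.Helper13.MS.SHA1
import Pool.Agent.Helper13.MS.SHA2

/-!
# MW-SHB: weighted version of MS/SHB.lean

For each letter `ω₀` with `σ ω₀ ≠ ω₀` condition on the steps equal to `ω₀` or `σ ω₀` (total probability `2 p ω₀`, equal weights); `C` = the maximum over `ω₀` of the constants.
-/

set_option autoImplicit false

namespace Pool.Agent.Helper13.MW

open Pool.Agent.Helper13.MS

private def Sh26 {V : Type} [CommGroup V] : V →* Module.End ℝ (V → ℝ) where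
  toFun a :=
    { toFun := fun f v => f (v * a)
      map_add' := fun _ _ => rfl
      map_smul' := fun _ _ => rfl }
  map_one' := by
    refine LinearMap.ext fun f => funext fun v => ?_
    show f (v * 1) = f v
    rw [mul_one]
  map_mul' a b := by
    refine LinearMap.ext fun f => funext fun v => ?_
    show f (v * (a * b)) = f (v * a * b)
    rw [mul_assoc]

private theorem Sh_apply26 {V : Type} [CommGroup V] (a : V) (f : V → ℝ) (v : V) :
    Sh26 a f v = f (v * a) := rfl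

private theorem comm26 {V : Type} [CommGroup V] (a b : V) : Commute (Sh26 a) (Sh26 b) :=
  (Commute.all a b).map Sh26

private theorem Qw_iter26 {V Ω : Type} [CommGroup V] [Fintype Ω] (s : Ω → V) (p : Ω → ℝ) (n : ℕ) (f : V → ℝ) :
    (Qw s p)^[n] f = ((∑ ω, p ω • Sh26 (s ω)) ^ n) f := by
  have h1 : Qw s p = ⇑(∑ ω, p ω • Sh26 (s ω)) := by
    funext g v
    rw [LinearMap.sum_apply, Finset.sum_apply]
    rfl
  rw [h1, Module.End.pow_apply]

/-- the powers of the two letter operator -/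
private theorem X_pow26 {V : Type} [CommGroup V] (u : V) (c : ℝ) (k : ℕ) (f : V → ℝ) (w : V) :
    ((c • (Sh26 u + Sh26 u⁻¹)) ^ k) f w =
      c ^ k * ∑ b ∈ Finset.range (k + 1), (k.choose b : ℝ) * f (w * u ^ (2 * (b : ℤ) - k)) := by
  rw [smul_pow, (comm26 u u⁻¹).add_pow, LinearMap.smul_apply, LinearMap.sum_apply, Pi.smul_apply,
    Finset.sum_apply, smul_eq_mul]
  congr 1
  refine Finset.sum_congr rfl fun b hb => ?_
  rw [Finset.mem_range] at hb
  rw [← nsmul_eq_mul', LinearMap.smul_apply, Pi.smul_apply, nsmul_eq_mul, ← map_pow, ← map_pow,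
    ← map_mul, Sh_apply26]
  congr 3
  rw [inv_pow, ← zpow_natCast, ← zpow_natCast, ← zpow_neg, ← zpow_add]
  congr 1
  push_cast [Nat.cast_sub (by omega : b ≤ k)]
  ring

private theorem pow_bound26 {V : Type} (Y : Module.End ℝ (V → ℝ)) {c : ℝ}
    (hY : ∀ (g : V → ℝ) (M : ℝ), (∀ v, |g v| ≤ M) → ∀ v, |Y g v| ≤ c * M) (m : ℕ) :
    ∀ (g : V → ℝ) (M : ℝ), (∀ v, |g v| ≤ M) → ∀ v, |(Y ^ m) g v| ≤ c ^ m * M := by
  induction m with
  | zero =>
    intro g M hg v
    simpa using hg v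
  | succ m ih =>
    intro g M hg v
    rw [pow_succ', Module.End.mul_apply]
    refine (hY _ _ (ih g M hg) v).trans (le_of_eq ?_)
    ring

private theorem one_letter26 {V Ω : Type} [CommGroup V] [Fintype Ω] (s : Ω → V)
    (σ : Ω ≃ Ω) (hσ : ∀ ω, s (σ ω) = (s ω)⁻¹) (p : Ω → ℝ) (hp : Wt p σ) (ω : Ω) (hω : σ ω ≠ ω) {F : ℝ} {f : V → ℝ}
    (hf : ∀ v, 0 ≤ f v ∧ f v ≤ F) (n : ℕ) (v : V) :
    |(Qw s p)^[n] f v - (Qw s p)^[n] f (v * s ω ^ 2)| ≤
      4 * F * (1 / Real.sqrt ((n + 1) * (2 * p ω))) := by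
  classical
  have hF : 0 ≤ F := (hf 1).1.trans (hf 1).2
  obtain ⟨c, hcdef⟩ : ∃ c : ℝ, c = p ω := ⟨_, rfl⟩
  have hcpos : 0 < c := by rw [hcdef]; exact hp.pos ω
  rw [← hcdef]
  set u := s ω with hu
  set W : Finset Ω := (Finset.univ.erase ω).erase (σ ω) with hW
  have hmem1 : σ ω ∈ Finset.univ.erase ω := Finset.mem_erase.2 ⟨hω, Finset.mem_univ _⟩
  have hWsum : ∑ a ∈ W, p a = 1 - 2 * c := by
    have h2 := Finset.add_sum_erase _ p hmem1
    have h3 := Finset.add_sum_erase _ p (Finset.mem_univ ω)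
    rw [hp.sum] at h3
    rw [hp.symm ω] at h2
    rw [hW, hcdef]
    linarith
  have hW0 : 0 ≤ ∑ a ∈ W, p a := Finset.sum_nonneg fun a _ => (hp.pos a).le
  set X : Module.End ℝ (V → ℝ) := c • (Sh26 u + Sh26 u⁻¹) with hX
  set Y : Module.End ℝ (V → ℝ) := ∑ a ∈ W, p a • Sh26 (s a) with hY
  have hQ : (∑ a, p a • Sh26 (s a) : Module.End ℝ (V → ℝ)) = X + Y := by
    rw [hX, hY, smul_add, ← Finset.add_sum_erase _ _ (Finset.mem_univ ω), ← Finset.add_sum_erase _ _ hmem1, hσ,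
      hp.symm ω, add_assoc, hcdef]
  have hXall : ∀ a : V, Commute X (Sh26 a) := fun a =>
    ((comm26 u a).add_left (comm26 u⁻¹ a)).smul_left _
  have hYall : ∀ a : V, Commute Y (Sh26 a) := fun a =>
    Commute.sum_left _ _ _ fun i _ => (comm26 (s i) a).smul_left _
  have hXY : Commute X Y := by
    rw [hY]
    exact Commute.sum_right _ _ _ fun i _ => (hXall (s i)).smul_right _
  set D : Module.End ℝ (V → ℝ) := 1 - Sh26 (u ^ 2) with hD
  have hDX : Commute D X := (Commute.one_left _).sub_left (hXall _).symm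
  have hDY : Commute D Y := (Commute.one_left _).sub_left (hYall _).symm
  have hexp : D * (X + Y) ^ n = ∑ k ∈ Finset.range (n + 1),
      (n.choose k : ℕ) • (Y ^ (n - k) * (D * X ^ k)) := by
    rw [hXY.add_pow, Finset.mul_sum]
    refine Finset.sum_congr rfl fun k _ => ?_
    rw [← nsmul_eq_mul', mul_smul_comm, ← mul_assoc]
    congr 1
    exact ((hDY.mul_left (hXY.pow_left k)).pow_right (n - k)).eq
  have hdiff : (Qw s p)^[n] f v - (Qw s p)^[n] f (v * u ^ 2) = ∑ k ∈ Finset.range (n + 1),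
      (n.choose k : ℝ) * (Y ^ (n - k)) (D ((X ^ k) f)) v := by
    have h1 : (Qw s p)^[n] f v - (Qw s p)^[n] f (v * u ^ 2) = (D * (X + Y) ^ n) f v := by
      rw [Qw_iter26, hQ]
      rfl
    rw [h1, hexp, LinearMap.sum_apply, Finset.sum_apply]
    refine Finset.sum_congr rfl fun k _ => ?_
    rw [LinearMap.smul_apply, Pi.smul_apply, nsmul_eq_mul]
    rfl
  have hDk : ∀ k : ℕ, ∀ w, |D ((X ^ k) f) w| ≤ (2 * c) ^ k * (4 * F / Real.sqrt (k + 1)) := by
    intro k w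
    have h1 : D ((X ^ k) f) w = (X ^ k) f w - (X ^ k) f (w * u ^ 2) := rfl
    have h2 : ∀ b : ℕ, w * u ^ 2 * u ^ (2 * (b : ℤ) - k) = w * u ^ (2 * ((b + 1 : ℕ) : ℤ) - k) := by
      intro b
      rw [mul_assoc, ← zpow_natCast u 2, ← zpow_add]
      congr 2
      push_cast
      ring
    rw [h1, hX, X_pow26, X_pow26, ← mul_sub, ← Finset.sum_sub_distrib]
    have h3 : ∑ b ∈ Finset.range (k + 1), ((k.choose b : ℝ) * f (w * u ^ (2 * (b : ℤ) - k)) -
        (k.choose b : ℝ) * f (w * u ^ 2 * u ^ (2 * (b : ℤ) - k))) =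
        ∑ b ∈ Finset.range (k + 1), (k.choose b : ℝ) * (f (w * u ^ (2 * (b : ℤ) - k)) -
          f (w * u ^ (2 * ((b + 1 : ℕ) : ℤ) - k))) := by
      refine Finset.sum_congr rfl fun b _ => ?_
      rw [h2, mul_sub]
    rw [h3, abs_mul, abs_of_nonneg (by positivity : (0 : ℝ) ≤ c ^ k)]
    have h4 := binomial_shift F (fun b => f (w * u ^ (2 * (b : ℤ) - k))) (fun b => hf _) k
    calc c ^ k * _ ≤ c ^ k * (2 ^ k * (4 * F / Real.sqrt (k + 1))) :=
          mul_le_mul_of_nonneg_left h4 (by positivity)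
      _ = (2 * c) ^ k * (4 * F / Real.sqrt (k + 1)) := by
          rw [mul_pow]
          ring
  have hYb : ∀ (g : V → ℝ) (M : ℝ), (∀ v, |g v| ≤ M) → ∀ v, |Y g v| ≤ (1 - 2 * c) * M := by
    intro g M hg w
    have h1 : Y g w = ∑ a ∈ W, p a * g (w * s a) := by
      rw [hY, LinearMap.sum_apply, Finset.sum_apply]
      rfl
    rw [h1]
    refine (Finset.abs_sum_le_sum_abs _ _).trans ?_
    rw [← hWsum, Finset.sum_mul]
    refine Finset.sum_le_sum fun a _ => ?_
    rw [abs_mul, abs_of_pos (hp.pos a)]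
    exact mul_le_mul_of_nonneg_left (hg _) (hp.pos a).le
  rw [hdiff]
  have hp0 : 0 < 2 * c := by positivity
  have hp1 : 2 * c ≤ 1 := by linarith
  have hc0 : 0 ≤ 1 - 2 * c := by linarith
  have havg := binomial_average hp0 hp1 n
  calc |∑ k ∈ Finset.range (n + 1), (n.choose k : ℝ) * (Y ^ (n - k)) (D ((X ^ k) f)) v|
      ≤ ∑ k ∈ Finset.range (n + 1), |(n.choose k : ℝ) * (Y ^ (n - k)) (D ((X ^ k) f)) v| :=
        Finset.abs_sum_le_sum_abs _ _
    _ ≤ ∑ k ∈ Finset.range (n + 1), 4 * F *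
        ((n.choose k : ℝ) * (1 - 2 * c) ^ (n - k) * (2 * c) ^ k / Real.sqrt (k + 1)) := by
        refine Finset.sum_le_sum fun k _ => ?_
        rw [abs_mul, abs_of_nonneg (by positivity : (0 : ℝ) ≤ (n.choose k : ℝ))]
        have h1 := pow_bound26 Y hYb (n - k) (D ((X ^ k) f)) _ (hDk k) v
        calc (n.choose k : ℝ) * |(Y ^ (n - k)) (D ((X ^ k) f)) v|
            ≤ (n.choose k : ℝ) * ((1 - 2 * c) ^ (n - k) *
              ((2 * c) ^ k * (4 * F / Real.sqrt (k + 1)))) :=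
              mul_le_mul_of_nonneg_left h1 (by positivity)
          _ = _ := by ring
    _ = 4 * F * ∑ k ∈ Finset.range (n + 1),
        (n.choose k : ℝ) * (1 - 2 * c) ^ (n - k) * (2 * c) ^ k / Real.sqrt (k + 1) := by
        rw [Finset.mul_sum]
    _ ≤ 4 * F * (1 / Real.sqrt ((n + 1) * (2 * c))) :=
        mul_le_mul_of_nonneg_left havg (by positivity)

theorem shift_one {V Ω : Type} [CommGroup V] [Fintype Ω] (s : Ω → V) (σ : Ω ≃ Ω) (hσ : ∀ ω, s (σ ω) = (s ω)⁻¹)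
    (p : Ω → ℝ) (hp : Wt p σ) :
    ∃ C : ℝ, 0 < C ∧ ∀ (F : ℝ) (f : V → ℝ), (∀ v, 0 ≤ f v ∧ f v ≤ F) → ∀ n : ℕ, 1 ≤ n → ∀ (ω : Ω) (v : V),
      |(Qw s p)^[n] f v - (Qw s p)^[n] f (v * s ω ^ 2)| ≤ C * F / Real.sqrt n := by
  have hS0 : ∀ ω, 0 ≤ 4 / Real.sqrt (p ω) := fun ω => by positivity
  refine ⟨∑ ω, 4 / Real.sqrt (p ω) + 1, by
    have := Finset.sum_nonneg fun ω (_ : ω ∈ Finset.univ) => hS0 ω
    linarith, fun F f hf n hn ω v => ?_⟩
  have hF : 0 ≤ F := (hf 1).1.trans (hf 1).2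
  have hn0 : (0 : ℝ) < n := by exact_mod_cast hn
  have hCsum : 4 / Real.sqrt (p ω) ≤ ∑ ω, 4 / Real.sqrt (p ω) + 1 := by
    have := Finset.single_le_sum (fun ω _ => hS0 ω) (Finset.mem_univ ω)
    linarith
  have hC0 : 0 ≤ ∑ ω, 4 / Real.sqrt (p ω) + 1 := (hS0 ω).trans hCsum
  by_cases hω : σ ω = ω
  · have h1 : s ω ^ 2 = 1 := by
      have h2 := hσ ω
      rw [hω] at h2
      rw [pow_two]
      nth_rewrite 1 [h2]
      exact inv_mul_cancel _
    rw [h1, mul_one, sub_self, abs_zero]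
    positivity
  · refine (one_letter26 s σ hσ p hp ω hω hf n v).trans ?_
    have hp0 := hp.pos ω
    have h1 : (n : ℝ) * p ω ≤ (n + 1) * (2 * p ω) := by
      nlinarith
    have h2 : Real.sqrt n * Real.sqrt (p ω) ≤ Real.sqrt ((n + 1) * (2 * p ω)) := by
      rw [← Real.sqrt_mul hn0.le]
      exact Real.sqrt_le_sqrt h1
    have h3 : 0 < Real.sqrt n * Real.sqrt (p ω) := by positivity
    calc 4 * F * (1 / Real.sqrt ((n + 1) * (2 * p ω)))
        ≤ 4 * F * (1 / (Real.sqrt n * Real.sqrt (p ω))) :=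
          mul_le_mul_of_nonneg_left (one_div_le_one_div_of_le h3 h2) (by positivity)
      _ = 4 / Real.sqrt (p ω) * F / Real.sqrt n := by
          field_simp
      _ ≤ (∑ ω, 4 / Real.sqrt (p ω) + 1) * F / Real.sqrt n := by
          gcongr

end Pool.Agent.Helper13.MW
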