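import Pool.Agent.Helper13.MW.QB
import Pool.Agent.Helper13.MS.SWB

/-!
# MW-SWB: weighted version of dom_letter in MS/SWB.lean
-/

set_option autoImplicit false

namespace Pool.Agent.Helper13.MW

open Pool.Agent.Helper13.MS

private theorem dom_one94w {G K Ω : Type} [Group G] [Field K] [Fintype Ω] (Tw : Twisted G K) (a0 : K)
    (s : Ω → G) (p : Ω → ℝ) (hp : ∀ ω, 0 ≤ p ω) (f : G → ℝ) (F : Multiset Kˣ → Kˣ → ℝ) (h : Dom Tw a0 f F) :
    Dom Tw a0 (Qw s p f) (fun S => Qw (fun ω => Tw.χ (s ω)) p (F S)) := by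
  intro I _ _ X S v hX
  show (∑ ω, p ω * F S (v * Tw.χ (s ω))) ≤
    (∑ i, (∑ ω, p ω * f (X i * s ω))) / (Fintype.card I : ℝ)
  have hst : ∀ ω, F S (v * Tw.χ (s ω)) ≤ (∑ i, f (X i * s ω)) / (Fintype.card I : ℝ) :=
    fun ω => h I (fun i => X i * s ω) S _ (adm_mul Tw a0 hX (s ω))
  have h1 : (∑ i, (∑ ω, p ω * f (X i * s ω))) / (Fintype.card I : ℝ) =
      ∑ ω, p ω * ((∑ i, f (X i * s ω)) / (Fintype.card I : ℝ)) := by
    rw [Finset.sum_comm, Finset.sum_div]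
    refine Finset.sum_congr rfl fun ω _ => ?_
    rw [← Finset.mul_sum, mul_div_assoc]
  rw [h1]
  exact Finset.sum_le_sum fun ω _ => mul_le_mul_of_nonneg_left (hst ω) (hp ω)

theorem dom_letter {G K Ω : Type} [Group G] [Field K] [Fintype Ω] (Tw : Twisted G K) (a0 : K) (s : Ω → G)
    (p : Ω → ℝ) (hp : ∀ ω, 0 ≤ p ω) (f : G → ℝ) (F : Multiset Kˣ → Kˣ → ℝ) (h : Dom Tw a0 f F) (n : ℕ) :
    Dom Tw a0 ((Qw s p)^[n] f) (fun S => (Qw (fun ω => Tw.χ (s ω)) p)^[n] (F S)) := by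
  induction n with
  | zero => exact h
  | succ n ih =>
    have := dom_one94w Tw a0 s p hp _ _ ih
    simp only [← Function.iterate_succ_apply' (Qw s p)] at this
    simpa only [Function.iterate_succ_apply'] using this

end Pool.Agent.Helper13.MW
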